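import Pool.Agent.U867.PM.Exp

set_option autoImplicit false
set_option maxHeartbeats 4000000

/-! # The sums of `min (H, 1 / (2 ‖v t l ξ‖))` (helper867) -/

namespace Pool.Agent.U867.PM

open Finset Pool.Agent.N965.LN Pool.Agent.N965.LN.Fej

theorem mm_le_KK {H : ℕ} (hH : 1 ≤ H) (x : ℝ) :
    mm H x ≤ ∑ j ∈ range (Nat.log 2 H + 1), KK (2 ^ j) x := by
  classical
  have hH' : (1 : ℝ) ≤ H := by exact_mod_cast hH
  have hnn : ∀ j ∈ range (Nat.log 2 H + 1), 0 ≤ KK (2 ^ j) x := fun j _ => KSP.KK_nonneg _ _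
  have hlog : (H : ℝ) ≤ 4 * (2 : ℝ) ^ (Nat.log 2 H) := by
    have h1 : H < 2 ^ (Nat.log 2 H + 1) := Nat.lt_pow_succ_log_self (by norm_num) H
    have h2 : (H : ℝ) < (2 : ℝ) ^ (Nat.log 2 H + 1) := by exact_mod_cast h1
    rw [pow_succ] at h2
    have : (0 : ℝ) < (2 : ℝ) ^ (Nat.log 2 H) := by positivity
    linarith
  have hd0 := dn_nonneg x
  have hd1 : dn x ≤ 1 / 2 := abs_sub_round x
  by_cases h0 : dn x = 0
  · refine le_trans ?_ (single_le_sum hnn (mem_range.2 (Nat.lt_succ_self (Nat.log 2 H))))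
    unfold mm KK
    rw [if_pos h0, if_pos h0]
    push_cast
    exact hlog
  have ht : 0 < dn x := lt_of_le_of_ne hd0 (Ne.symm h0)
  by_cases h1 : 4 * (2 : ℝ) ^ (Nat.log 2 H) * dn x < 1
  · refine le_trans ?_ (single_le_sum hnn (mem_range.2 (Nat.lt_succ_self (Nat.log 2 H))))
    unfold mm KK
    rw [if_neg h0, if_neg h0]
    refine le_min ((min_le_left _ _).trans (by push_cast; exact hlog)) ((min_le_left _ _).trans (hlog.trans ?_))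
    push_cast
    rw [le_div_iff₀ (by positivity)]
    have h2 : 0 ≤ 4 * (2 : ℝ) ^ (Nat.log 2 H) * dn x := by positivity
    have h3 := mul_le_mul h1.le h1.le h2 zero_le_one
    calc _ = (4 * (2 : ℝ) ^ (Nat.log 2 H) * dn x) * (4 * (2 : ℝ) ^ (Nat.log 2 H) * dn x) := by ring
      _ ≤ 1 := by linarith
  · push Not at h1
    -- the least such exponent
    have hex : ∃ j, 1 ≤ 4 * (2 : ℝ) ^ j * dn x := ⟨_, h1⟩
    obtain ⟨j, hj, hmin⟩ : ∃ j, 1 ≤ 4 * (2 : ℝ) ^ j * dn x ∧ ∀ i < j, ¬ 1 ≤ 4 * (2 : ℝ) ^ i * dn x :=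
      ⟨Nat.find hex, Nat.find_spec hex, fun i hi => Nat.find_min hex hi⟩
    have hjl : j ≤ Nat.log 2 H := by
      by_contra hc
      push Not at hc
      exact hmin _ hc h1
    refine le_trans ?_ (single_le_sum hnn (mem_range.2 (Nat.lt_succ_of_le hjl)))
    unfold mm KK
    rw [if_neg h0, if_neg h0]
    refine (min_le_right _ _).trans (le_min ?_ ?_)
    · rw [div_le_iff₀ (by positivity)]
      push_cast
      nlinarith
    · push_cast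
      rw [div_le_div_iff₀ (by positivity) (by positivity)]
      have h2 : 4 * (2 : ℝ) ^ j * dn x ≤ 2 := by
        rcases Nat.eq_zero_or_pos j with hj0 | hj0
        · rw [hj0, pow_zero]
          linarith
        · have h3 := hmin (j - 1) (by omega)
          push Not at h3
          have h4 : (2 : ℝ) ^ j = 2 * 2 ^ (j - 1) := by
            rw [← pow_succ']
            congr 1
            omega
          rw [h4]
          linarith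
      calc 1 * (4 * (2 : ℝ) ^ j * dn x ^ 2) = (4 * (2 : ℝ) ^ j * dn x) * dn x := by ring
        _ ≤ 2 * dn x := mul_le_mul_of_nonneg_right h2 ht.le
        _ = 1 * (2 * dn x) := by ring

theorem minsum {ξ : ℝ} (hK : Ksum (fun _ : Fin 1 => ξ)) : ∀ τ : ℝ, 0 < τ → ∃ C : ℝ, 0 < C ∧
    ∀ H : ℕ, 1 ≤ H → ∀ N : ℕ, ∑ n ∈ Icc 1 N, mm H ((n : ℝ) * ξ) ≤ C * N * (H : ℝ) ^ τ := by
  intro τ hτ
  obtain ⟨C, hC, h⟩ := hK (τ / 2) (by positivity)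
  refine ⟨C * (2 + 4 / τ), by positivity, fun H hH N => ?_⟩
  have hH' : (1 : ℝ) ≤ H := by exact_mod_cast hH
  have hH0 : (0 : ℝ) < H := by linarith
  have h1 : ∀ j ∈ range (Nat.log 2 H + 1), ∑ n ∈ Icc 1 N, KK (2 ^ j) ((n : ℝ) * ξ) ≤
      C * N * (H : ℝ) ^ (τ / 2) := by
    intro j hj
    have h2 := h (2 ^ j) (Nat.one_le_two_pow) N
    simp only [Finset.univ_unique, Finset.prod_singleton] at h2
    refine h2.trans ?_
    refine mul_le_mul_of_nonneg_left ?_ (by positivity)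
    refine Real.rpow_le_rpow (by positivity) ?_ (by positivity)
    rw [mem_range] at hj
    have : 2 ^ j ≤ H := (Nat.pow_le_pow_right (by norm_num) (Nat.lt_succ_iff.1 hj)).trans
      (Nat.pow_log_le_self 2 (by omega))
    exact_mod_cast this
  have h3 : ((Nat.log 2 H + 1 : ℕ) : ℝ) ≤ (2 + 4 / τ) * (H : ℝ) ^ (τ / 2) := by
    have h4 : ((Nat.log 2 H : ℕ) : ℝ) * Real.log 2 ≤ Real.log H := by
      have : (2 : ℝ) ^ (Nat.log 2 H) ≤ H := by exact_mod_cast Nat.pow_log_le_self 2 (by omega)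
      have h5 := Real.log_le_log (by positivity) this
      rwa [Real.log_pow] at h5
    have h5 : Real.log H ≤ (H : ℝ) ^ (τ / 2) / (τ / 2) := Real.log_le_rpow_div hH0.le (by positivity)
    have h6 : (1 : ℝ) / 2 ≤ Real.log 2 := by
      have := Real.log_two_gt_d9
      linarith
    have h7 : ((Nat.log 2 H : ℕ) : ℝ) ≤ 2 * Real.log H := by
      have h8 : (0 : ℝ) ≤ (Nat.log 2 H : ℕ) := Nat.cast_nonneg _
      nlinarith
    have h8 : (1 : ℝ) ≤ (H : ℝ) ^ (τ / 2) := Real.one_le_rpow hH' (by positivity)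
    push_cast
    have h9 : (H : ℝ) ^ (τ / 2) / (τ / 2) = 2 / τ * (H : ℝ) ^ (τ / 2) := by field_simp
    rw [h9] at h5
    have h10 : 4 / τ * (H : ℝ) ^ (τ / 2) = 2 * (2 / τ * (H : ℝ) ^ (τ / 2)) := by ring
    rw [add_mul, h10]
    linarith
  calc ∑ n ∈ Icc 1 N, mm H ((n : ℝ) * ξ)
      ≤ ∑ n ∈ Icc 1 N, ∑ j ∈ range (Nat.log 2 H + 1), KK (2 ^ j) ((n : ℝ) * ξ) :=
        sum_le_sum fun n _ => mm_le_KK hH _
    _ = ∑ j ∈ range (Nat.log 2 H + 1), ∑ n ∈ Icc 1 N, KK (2 ^ j) ((n : ℝ) * ξ) := sum_comm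
    _ ≤ ∑ j ∈ range (Nat.log 2 H + 1), C * N * (H : ℝ) ^ (τ / 2) := sum_le_sum h1
    _ = ((Nat.log 2 H + 1 : ℕ) : ℝ) * (C * N * (H : ℝ) ^ (τ / 2)) := by
        rw [sum_const, card_range, nsmul_eq_mul]
    _ ≤ (2 + 4 / τ) * (H : ℝ) ^ (τ / 2) * (C * N * (H : ℝ) ^ (τ / 2)) :=
        mul_le_mul_of_nonneg_right h3 (by positivity)
    _ = C * (2 + 4 / τ) * N * (H : ℝ) ^ τ := by
        have : (H : ℝ) ^ τ = (H : ℝ) ^ (τ / 2) * (H : ℝ) ^ (τ / 2) := by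
          rw [← Real.rpow_add hH0]
          congr 1
          ring
        rw [this]
        ring

/-- dilations -/
theorem dil (ξ : ℝ) (H N l : ℕ) (hl : 1 ≤ l) :
    ∑ n ∈ Icc 1 N, mm H ((n : ℝ) * (ξ * l)) ≤ ∑ n ∈ Icc 1 (l * N), mm H ((n : ℝ) * ξ) := by
  have h1 : ∀ n ∈ Icc 1 N, mm H ((n : ℝ) * (ξ * l)) = mm H (((l * n : ℕ) : ℝ) * ξ) := by
    intro n _
    congr 1
    push_cast
    ring
  have hinj : Set.InjOn (fun n => l * n) (Icc 1 N : Finset ℕ) := by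
    intro a _ b _ hab
    exact Nat.eq_of_mul_eq_mul_left hl hab
  rw [sum_congr rfl h1, ← sum_image (f := fun n : ℕ => mm H ((n : ℝ) * ξ)) hinj]
  refine sum_le_sum_of_subset_of_nonneg ?_ fun n _ _ => mm_nonneg _ _
  intro n hn
  obtain ⟨a, ha, rfl⟩ := mem_image.1 hn
  rw [mem_Icc] at ha ⊢
  exact ⟨Nat.mul_pos hl ha.1, Nat.mul_le_mul_left l ha.2⟩

/-- sums over products -/
theorem tsum_le {ξ : ℝ} (hK : Ksum (fun _ : Fin 1 => ξ)) : ∀ τ : ℝ, 0 < τ → ∃ C : ℝ, 0 < C ∧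
    ∀ H : ℕ, 1 ≤ H → ∀ l : ℕ, 1 ≤ l → ∀ Y : ℝ, 0 < Y → ∀ s : ℕ,
      ∑ t ∈ Icc 1 s, ∑ v ∈ Icc 1 ⌊(t : ℝ) * Y⌋₊, mm H ((v : ℝ) * (((t : ℝ) * ξ) * l)) ≤
        C * l * (Y * (s : ℝ) ^ 2) ^ (1 + τ) * (H : ℝ) ^ τ := by
  intro τ hτ
  obtain ⟨C2, hC2, hK2⟩ := minsum hK τ hτ
  obtain ⟨C1, hC1, hdiv⟩ := Pool.Agent.H510R2.divisor_bound τ hτ
  refine ⟨C1 * C2, by positivity, ?_⟩
  intro H hH l hl Y hY s
  obtain ⟨N, hN⟩ : ∃ N : ℕ, N = ⌊Y * (s : ℝ) ^ 2⌋₊ := ⟨_, rfl⟩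
  have hN' : (N : ℝ) ≤ Y * (s : ℝ) ^ 2 := by
    rw [hN]; exact Nat.floor_le (by positivity)
  set F : ℕ → ℝ := fun n => mm H ((n : ℝ) * (ξ * l)) with hFdef
  have hF : ∀ n, 0 ≤ F n := fun n => mm_nonneg _ _
  have h1 : ∑ t ∈ Icc 1 s, ∑ v ∈ Icc 1 ⌊(t : ℝ) * Y⌋₊, mm H ((v : ℝ) * (((t : ℝ) * ξ) * l)) ≤
      ∑ n ∈ Icc 1 N, (n.divisors.card : ℝ) * F n := by
    refine le_trans (Finset.sum_le_sum fun t ht => ?_) (FtlAux.outer_le F hF s N)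
    rw [Finset.mem_Icc] at ht
    have h2 : ∀ v ∈ Icc 1 ⌊(t : ℝ) * Y⌋₊, mm H ((v : ℝ) * (((t : ℝ) * ξ) * l)) = F (v * t) := by
      intro v _
      simp only [hFdef]
      congr 1
      push_cast
      ring
    rw [sum_congr rfl h2]
    refine FtlAux.inner_le F hF t _ N ht.1 ?_
    rw [hN]
    refine Nat.le_floor ?_
    push_cast
    have ht0 : (0 : ℝ) ≤ t := Nat.cast_nonneg t
    have hts : (t : ℝ) ≤ s := by exact_mod_cast ht.2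
    have h2 : ((⌊(t : ℝ) * Y⌋₊ : ℕ) : ℝ) ≤ t * Y := Nat.floor_le (by positivity)
    calc ((⌊(t : ℝ) * Y⌋₊ : ℕ) : ℝ) * t ≤ (t * Y) * t := mul_le_mul_of_nonneg_right h2 ht0
      _ = Y * (t : ℝ) ^ 2 := by ring
      _ ≤ Y * (s : ℝ) ^ 2 :=
        mul_le_mul_of_nonneg_left (pow_le_pow_left₀ ht0 hts 2) hY.le
  refine h1.trans ?_
  have h2 : ∑ n ∈ Icc 1 N, (n.divisors.card : ℝ) * F n ≤
      ∑ n ∈ Icc 1 N, (C1 * (N : ℝ) ^ τ) * F n := by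
    refine Finset.sum_le_sum fun n hn => ?_
    rw [Finset.mem_Icc] at hn
    refine mul_le_mul_of_nonneg_right ?_ (hF n)
    refine (hdiv n hn.1).trans ?_
    refine mul_le_mul_of_nonneg_left ?_ hC1.le
    exact Real.rpow_le_rpow (Nat.cast_nonneg _) (by exact_mod_cast hn.2) hτ.le
  refine h2.trans ?_
  rw [← Finset.mul_sum]
  have h3 : ∑ n ∈ Icc 1 N, F n ≤ C2 * ((l * N : ℕ) : ℝ) * (H : ℝ) ^ τ :=
    (dil ξ H N l hl).trans (hK2 H hH (l * N))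
  have h4 : C1 * (N : ℝ) ^ τ * ∑ n ∈ Icc 1 N, F n ≤
      C1 * (N : ℝ) ^ τ * (C2 * ((l * N : ℕ) : ℝ) * (H : ℝ) ^ τ) :=
    mul_le_mul_of_nonneg_left h3 (by positivity)
  refine h4.trans ?_
  have h5 : C1 * (N : ℝ) ^ τ * (C2 * ((l * N : ℕ) : ℝ) * (H : ℝ) ^ τ) =
      C1 * C2 * l * (N : ℝ) ^ (1 + τ) * (H : ℝ) ^ τ := by
    rw [Real.rpow_add_of_nonneg (Nat.cast_nonneg N) zero_le_one hτ.le, Real.rpow_one]
    push_cast
    ring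
  rw [h5]
  have h6 : (N : ℝ) ^ (1 + τ) ≤ (Y * (s : ℝ) ^ 2) ^ (1 + τ) :=
    Real.rpow_le_rpow (Nat.cast_nonneg N) hN' (by positivity)
  refine mul_le_mul_of_nonneg_right ?_ (by positivity)
  exact mul_le_mul_of_nonneg_left h6 (by positivity)

/-- the error sum -/
theorem errsum {ξ : ℝ} (hK : Ksum (fun _ : Fin 1 => ξ)) : ∀ τ : ℝ, 0 < τ → ∃ C : ℝ, 0 < C ∧
    ∀ H : ℕ, 1 ≤ H → ∀ L : ℕ, ∀ Y : ℝ, 0 < Y → ∀ X : ℕ,
    ∀ ψ : ℕ → ℝ, (∀ n, 0 ≤ ψ n) → Antitone ψ → Summable ψ →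
      ∑ q ∈ Icc 1 X, ψ q * ∑ l ∈ Icc 1 L, ∑ v ∈ Icc 1 ⌊(q : ℝ) * Y⌋₊, mm H ((v : ℝ) * (((q : ℝ) * ξ) * l)) ≤
        C * (∑' n, ψ n) * (L : ℝ) ^ 2 * Y ^ (1 + τ) * (H : ℝ) ^ τ * (X : ℝ) ^ (1 + 2 * τ) := by
  intro τ hτ
  obtain ⟨C, hC, h⟩ := tsum_le hK τ hτ
  refine ⟨2 * C, by positivity, fun H hH L Y hY X ψ hψ0 hψ hs => ?_⟩
  have hΨ : ∀ n : ℕ, (n : ℝ) * ψ n ≤ ∑' n, ψ n := (t_PSI ψ hψ0 hψ hs).1
  have hΨ0 : 0 ≤ ∑' n, ψ n := tsum_nonneg hψ0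
  have h1 : ∀ l ∈ Icc 1 L, ∑ q ∈ Icc 1 X, ψ q * ∑ v ∈ Icc 1 ⌊(q : ℝ) * Y⌋₊, mm H ((v : ℝ) * (((q : ℝ) * ξ) * l)) ≤
      2 * C * (∑' n, ψ n) * L * Y ^ (1 + τ) * (H : ℝ) ^ τ * (X : ℝ) ^ (1 + 2 * τ) := by
    intro l hl
    rw [mem_Icc] at hl
    set f : ℕ → ℝ := fun t => ∑ v ∈ Icc 1 ⌊(t : ℝ) * Y⌋₊, mm H ((v : ℝ) * (((t : ℝ) * ξ) * l)) with hf
    have hf0 : ∀ t, 0 ≤ f t := fun t => sum_nonneg fun v _ => mm_nonneg _ _
    have h2 := t_PS f (C * l * Y ^ (1 + τ) * (H : ℝ) ^ τ) τ X hf0 (by positivity) hτ (fun s _ => by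
      refine (h H hH l hl.1 Y hY s).trans (le_of_eq ?_)
      rw [Real.mul_rpow hY.le (by positivity), ← Real.rpow_natCast, ← Real.rpow_mul (by positivity)]
      have : ((2 : ℕ) : ℝ) * (1 + τ) = 2 + 2 * τ := by push_cast; ring
      rw [this]
      ring)
    have hlL : (l : ℝ) ≤ L := by exact_mod_cast hl.2
    calc ∑ q ∈ Icc 1 X, ψ q * f q ≤ ∑ q ∈ Icc 1 X, (∑' n, ψ n) * (f q / q) := by
          refine sum_le_sum fun q hq => ?_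
          rw [mem_Icc] at hq
          have hq0 : (0 : ℝ) < q := by exact_mod_cast hq.1
          have h3 := hΨ q
          have h4 : ψ q ≤ (∑' n, ψ n) / q := by
            rw [le_div_iff₀ hq0]
            linarith
          calc ψ q * f q ≤ (∑' n, ψ n) / q * f q := mul_le_mul_of_nonneg_right h4 (hf0 q)
            _ = _ := by ring
      _ = (∑' n, ψ n) * ∑ q ∈ Icc 1 X, f q / q := by rw [mul_sum]
      _ ≤ (∑' n, ψ n) * (2 * (C * l * Y ^ (1 + τ) * (H : ℝ) ^ τ) * (X : ℝ) ^ (1 + 2 * τ)) :=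
          mul_le_mul_of_nonneg_left h2 hΨ0
      _ ≤ (∑' n, ψ n) * (2 * (C * L * Y ^ (1 + τ) * (H : ℝ) ^ τ) * (X : ℝ) ^ (1 + 2 * τ)) := by
          gcongr
      _ = _ := by ring
  calc _ = ∑ l ∈ Icc 1 L, ∑ q ∈ Icc 1 X, ψ q * ∑ v ∈ Icc 1 ⌊(q : ℝ) * Y⌋₊, mm H ((v : ℝ) * (((q : ℝ) * ξ) * l)) := by
        rw [sum_comm]
        refine sum_congr rfl fun q _ => ?_
        rw [mul_sum]
    _ ≤ ∑ l ∈ Icc 1 L, 2 * C * (∑' n, ψ n) * L * Y ^ (1 + τ) * (H : ℝ) ^ τ * (X : ℝ) ^ (1 + 2 * τ) :=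
        sum_le_sum h1
    _ = _ := by
        rw [sum_const, Nat.card_Icc, nsmul_eq_mul, Nat.add_sub_cancel]
        ring

end Pool.Agent.U867.PM
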