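import Pool.Agent.U867.PM.Main

set_option autoImplicit false
set_option maxHeartbeats 4000000

/-! # Multiples of `ξ` with sieve conditions on the factor: all denominators (helper867) -/

namespace Pool.Agent.U867.PM

open Finset Pool.Agent.N965.LN Pool.Agent.N965.LN.Fej

open scoped Classical in
/-- all denominators up to `x ^ κ`, for a function `ψ` which is not too small -/
theorem core {ξ : ℝ} (hK : Ksum (fun _ : Fin 1 => ξ)) (D : Finset ℕ) (hD : D.Nonempty) (κ : ℝ)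
    (hκ0 : 0 ≤ κ) (hκ : κ < 1) (ψ : ℕ → ℝ) (hψ0 : ∀ n, 0 < ψ n) (hψ : Antitone ψ) (hs : Summable ψ)
    (hlow : ∀ n : ℕ, 1 ≤ n → (n : ℝ) ^ (-(1 + (1 - κ) / 24)) ≤ (2 : ℝ) ^ (1 + (1 - κ) / 24) * ψ n) :
    ∃ C : ℝ, 0 < C ∧ ∃ x₀ : ℕ, 3 ≤ x₀ ∧ ∀ x : ℕ, x₀ ≤ x → ∀ c : ℝ,
      (x : ℝ) ^ (-((1 - κ) / 4)) ≤ c → c ≤ 1 → ∀ γ : ℝ,
      (((range x).filter (fun m => Rough D x m ∧ ∃ q : ℕ, 1 ≤ q ∧ (q : ℝ) ≤ (x : ℝ) ^ κ ∧
        dn (((q : ℝ) * ξ) * m + (q : ℝ) * γ) ≤ c * ψ q)).card : ℝ) ≤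
        C * (c + (x : ℝ) ^ (-((1 - κ) / 4))) * x / (Real.log x) ^ D.card := by
  set g := 1 - κ with hg
  have hg0 : 0 < g := by linarith
  have hg1 : g ≤ 1 := by linarith
  set τ := g / 24 with hτ
  have hτ0 : 0 < τ := by positivity
  have hτ1 : τ ≤ 1 := by linarith
  obtain ⟨C₀, hC₀, x₁, hx₁, hsieve⟩ := weighted D hD 0 (g / 40) (by positivity) (by linarith)
  obtain ⟨C₁, hC₁, herr⟩ := errsum hK τ hτ0
  obtain ⟨C₂, hC₂, hlogp⟩ := log_pow_le D.card (1 - g / 2) (1 - g / 4) (by linarith)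
  set Ψ := ∑' n, ψ n with hΨdef
  have hΨ0 : 0 < Ψ := hs.tsum_pos (fun n => (hψ0 n).le) 0 (hψ0 0)
  refine ⟨10 * C₀ * Ψ + (10 * Ψ + 180 * C₁ * Ψ) * C₂, by positivity, x₁, hx₁, ?_⟩
  intro x hx c hcx hc1 γ
  have hx3 : 3 ≤ x := hx₁.trans hx
  have hx1 : (1 : ℝ) ≤ x := by exact_mod_cast (by omega : 1 ≤ x)
  have hx0 : (0 : ℝ) < x := by linarith
  have hlog : 0 < Real.log x := Real.log_pos (by exact_mod_cast (by omega : 1 < x))
  have hc0 : 0 < c := lt_of_lt_of_le (by positivity) hcx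
  set X := ⌊(x : ℝ) ^ κ⌋₊ with hX
  have hX1 : 1 ≤ X := Nat.le_floor (by rw [Nat.cast_one]; exact Real.one_le_rpow hx1 hκ0)
  have hX1' : (1 : ℝ) ≤ X := by exact_mod_cast hX1
  have hXle : (X : ℝ) ≤ (x : ℝ) ^ κ := Nat.floor_le (by positivity)
  set Y : ℝ := 3 * (X : ℝ) ^ τ / c with hY
  have hXτ : 1 ≤ (X : ℝ) ^ τ := Real.one_le_rpow hX1' hτ0.le
  have hY0 : 0 < Y := by positivity
  set L := ⌊(x : ℝ) ^ (2 * (g / 40))⌋₊ with hL
  have hLle : (L : ℝ) ≤ (x : ℝ) ^ (2 * (g / 40)) := Nat.floor_le (by positivity)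
  -- one denominator
  have hone : ∀ q ∈ Icc 1 X, (((range x).filter (fun m => Rough D x m ∧
      dn (((q : ℝ) * ξ) * m + (q : ℝ) * γ) ≤ c * ψ q)).card : ℝ) ≤
      C₀ * (10 * (c * ψ q) * x) / (Real.log x) ^ D.card + (x : ℝ) ^ (6 * (g / 40)) *
        (10 * (c * ψ q) + 20 * (c * ψ q) * ∑ l ∈ Icc 1 L, ∑ v ∈ Icc 1 ⌊(q : ℝ) * Y⌋₊,
          mm x ((v : ℝ) * (((q : ℝ) * ξ) * l))) := by
    intro q hq
    rw [mem_Icc] at hq
    have hq1 : (1 : ℝ) ≤ q := by exact_mod_cast hq.1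
    have hq0 : (0 : ℝ) < q := by linarith
    have hqX : (q : ℝ) ≤ X := by exact_mod_cast hq.2
    refine one_q D ξ (g / 40) x C₀ (fun w hw A hA Er hEr h => hsieve x hx w hw A hA Er hEr h) hC₀.le
      hlog γ (c * ψ q) (mul_pos hc0 (hψ0 q)) q ⌊(q : ℝ) * Y⌋₊ ?_
    have h1 : 1 / (2 * min (c * ψ q) (1 / 2)) ≤ (q : ℝ) * Y := by
      rcases le_total (c * ψ q) (1 / 2) with h2 | h2
      · rw [min_eq_left h2]
        have h3 := hlow q hq.1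
        have h4 : (q : ℝ) ^ (-(1 + τ)) = 1 / (q : ℝ) ^ (1 + τ) := by
          rw [Real.rpow_neg hq0.le, one_div]
        rw [h4, div_le_iff₀ (by positivity)] at h3
        have h5 : (2 : ℝ) ^ (1 + τ) ≤ 4 := by
          calc (2 : ℝ) ^ (1 + τ) ≤ (2 : ℝ) ^ (2 : ℝ) :=
                Real.rpow_le_rpow_of_exponent_le (by norm_num) (by linarith)
            _ = 4 := by norm_num
        have h6 : (q : ℝ) ^ (1 + τ) ≤ q * (X : ℝ) ^ τ := by
          rw [Real.rpow_add hq0, Real.rpow_one]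
          exact mul_le_mul_of_nonneg_left (Real.rpow_le_rpow hq0.le hqX hτ0.le) hq0.le
        have hψq := hψ0 q
        have h7 : 1 ≤ 4 * ψ q * (q * (X : ℝ) ^ τ) := by
          calc (1 : ℝ) ≤ (2 : ℝ) ^ (1 + τ) * ψ q * (q : ℝ) ^ (1 + τ) := h3
            _ ≤ 4 * ψ q * (q * (X : ℝ) ^ τ) := by gcongr
        rw [div_le_iff₀ (by positivity), hY]
        have h8 : (q : ℝ) * (3 * (X : ℝ) ^ τ / c) * (2 * (c * ψ q)) =
            3 / 2 * (4 * ψ q * (q * (X : ℝ) ^ τ)) := by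
          field_simp
          ring
        rw [h8]
        linarith
      · rw [min_eq_right h2]
        have h3 : (1 : ℝ) / (2 * (1 / 2)) = 1 := by norm_num
        rw [h3, hY]
        have h4 : 1 ≤ 3 * (X : ℝ) ^ τ / c := by
          rw [le_div_iff₀ hc0]
          linarith
        nlinarith
    exact lt_of_le_of_lt h1 (Nat.lt_floor_add_one _)
  -- the union
  have hunion : (((range x).filter (fun m => Rough D x m ∧ ∃ q : ℕ, 1 ≤ q ∧ (q : ℝ) ≤ (x : ℝ) ^ κ ∧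
        dn (((q : ℝ) * ξ) * m + (q : ℝ) * γ) ≤ c * ψ q)).card : ℝ) ≤
      ∑ q ∈ Icc 1 X, (((range x).filter (fun m => Rough D x m ∧
        dn (((q : ℝ) * ξ) * m + (q : ℝ) * γ) ≤ c * ψ q)).card : ℝ) := by
    have h1 : (range x).filter (fun m => Rough D x m ∧ ∃ q : ℕ, 1 ≤ q ∧ (q : ℝ) ≤ (x : ℝ) ^ κ ∧
        dn (((q : ℝ) * ξ) * m + (q : ℝ) * γ) ≤ c * ψ q) ⊆
        (Icc 1 X).biUnion (fun q => (range x).filter (fun m => Rough D x m ∧
          dn (((q : ℝ) * ξ) * m + (q : ℝ) * γ) ≤ c * ψ q)) := by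
      intro m hm
      rw [mem_filter] at hm
      obtain ⟨h2, h3, q, h4, h5, h6⟩ := hm
      rw [mem_biUnion]
      exact ⟨q, mem_Icc.2 ⟨h4, Nat.le_floor h5⟩, mem_filter.2 ⟨h2, h3, h6⟩⟩
    exact_mod_cast (card_le_card h1).trans card_biUnion_le
  refine hunion.trans ((sum_le_sum hone).trans ?_)
  rw [sum_add_distrib]
  -- the main term
  have hψsum : ∑ q ∈ Icc 1 X, ψ q ≤ Ψ := hs.sum_le_tsum _ fun i _ => (hψ0 i).le
  have hmain : ∑ q ∈ Icc 1 X, C₀ * (10 * (c * ψ q) * x) / (Real.log x) ^ D.card ≤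
      10 * C₀ * Ψ * c * x / (Real.log x) ^ D.card := by
    have h1 : ∑ q ∈ Icc 1 X, C₀ * (10 * (c * ψ q) * x) / (Real.log x) ^ D.card =
        10 * C₀ * c * x / (Real.log x) ^ D.card * ∑ q ∈ Icc 1 X, ψ q := by
      rw [mul_sum]
      refine sum_congr rfl fun q _ => ?_
      ring
    rw [h1]
    calc _ ≤ 10 * C₀ * c * x / (Real.log x) ^ D.card * Ψ :=
          mul_le_mul_of_nonneg_left hψsum (by positivity)
      _ = _ := by ring
  -- the error term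
  have herr' := herr x (by omega) L Y hY0 X ψ (fun n => (hψ0 n).le) hψ hs
  have hE : ∑ q ∈ Icc 1 X, (x : ℝ) ^ (6 * (g / 40)) *
        (10 * (c * ψ q) + 20 * (c * ψ q) * ∑ l ∈ Icc 1 L, ∑ v ∈ Icc 1 ⌊(q : ℝ) * Y⌋₊,
          mm x ((v : ℝ) * (((q : ℝ) * ξ) * l))) ≤
      (10 * Ψ + 180 * C₁ * Ψ) * (x : ℝ) ^ (1 - g / 2) := by
    have h1 : ∑ q ∈ Icc 1 X, (x : ℝ) ^ (6 * (g / 40)) *
        (10 * (c * ψ q) + 20 * (c * ψ q) * ∑ l ∈ Icc 1 L, ∑ v ∈ Icc 1 ⌊(q : ℝ) * Y⌋₊,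
          mm x ((v : ℝ) * (((q : ℝ) * ξ) * l))) =
        (x : ℝ) ^ (6 * (g / 40)) * (10 * c * ∑ q ∈ Icc 1 X, ψ q + 20 * c *
          ∑ q ∈ Icc 1 X, ψ q * ∑ l ∈ Icc 1 L, ∑ v ∈ Icc 1 ⌊(q : ℝ) * Y⌋₊,
          mm x ((v : ℝ) * (((q : ℝ) * ξ) * l))) := by
      rw [← mul_sum, sum_add_distrib, mul_sum, mul_sum]
      congr 2
      · refine sum_congr rfl fun q _ => ?_
        ring
      · refine sum_congr rfl fun q _ => ?_
        ring
    rw [h1]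
    -- `c * Y ^ (1 + τ)`
    have h2 : c * Y ^ (1 + τ) ≤ 9 * (X : ℝ) ^ (2 * τ) * (x : ℝ) ^ τ := by
      have h3 : Y ^ (1 + τ) = (3 : ℝ) ^ (1 + τ) * ((X : ℝ) ^ τ) ^ (1 + τ) / c ^ (1 + τ) := by
        rw [hY, Real.div_rpow (by positivity) hc0.le, Real.mul_rpow (by norm_num) (by positivity)]
      have h4 : (3 : ℝ) ^ (1 + τ) ≤ 9 := by
        calc (3 : ℝ) ^ (1 + τ) ≤ (3 : ℝ) ^ (2 : ℝ) :=
              Real.rpow_le_rpow_of_exponent_le (by norm_num) (by linarith)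
          _ = 9 := by norm_num
      have h5 : ((X : ℝ) ^ τ) ^ (1 + τ) ≤ (X : ℝ) ^ (2 * τ) := by
        rw [← Real.rpow_mul (by positivity)]
        exact Real.rpow_le_rpow_of_exponent_le hX1' (by nlinarith)
      have h6 : c * (1 / c ^ (1 + τ)) ≤ (x : ℝ) ^ τ := by
        have h7 : c * (1 / c ^ (1 + τ)) = c ^ (-τ) := by
          rw [Real.rpow_add hc0, Real.rpow_one, Real.rpow_neg hc0.le]
          field_simp
        rw [h7]
        have h8 : c ^ (-τ) ≤ ((x : ℝ) ^ (-(g / 4))) ^ (-τ) :=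
          Real.rpow_le_rpow_of_nonpos (by positivity) hcx (by linarith)
        refine h8.trans ?_
        rw [← Real.rpow_mul hx0.le]
        exact Real.rpow_le_rpow_of_exponent_le hx1 (by nlinarith)
      rw [h3]
      calc c * ((3 : ℝ) ^ (1 + τ) * ((X : ℝ) ^ τ) ^ (1 + τ) / c ^ (1 + τ))
          = (3 : ℝ) ^ (1 + τ) * ((X : ℝ) ^ τ) ^ (1 + τ) * (c * (1 / c ^ (1 + τ))) := by ring
        _ ≤ 9 * (X : ℝ) ^ (2 * τ) * (x : ℝ) ^ τ := by
            refine mul_le_mul ?_ h6 (by positivity) (by positivity)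
            exact mul_le_mul h4 h5 (by positivity) (by norm_num)
    have hL2 : (L : ℝ) ^ 2 ≤ (x : ℝ) ^ (4 * (g / 40)) := by
      calc (L : ℝ) ^ 2 ≤ ((x : ℝ) ^ (2 * (g / 40))) ^ 2 := pow_le_pow_left₀ (by positivity) hLle 2
        _ = (x : ℝ) ^ (4 * (g / 40)) := by
          rw [← Real.rpow_natCast, ← Real.rpow_mul hx0.le]
          congr 1
          push_cast
          ring
    have hX2 : (X : ℝ) ^ (2 * τ) * (X : ℝ) ^ (1 + 2 * τ) ≤ (x : ℝ) ^ (κ + 4 * τ) := by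
      rw [← Real.rpow_add (by linarith)]
      calc (X : ℝ) ^ (2 * τ + (1 + 2 * τ)) ≤ ((x : ℝ) ^ κ) ^ (2 * τ + (1 + 2 * τ)) :=
            Real.rpow_le_rpow (by positivity) hXle (by positivity)
        _ = (x : ℝ) ^ (κ * (2 * τ + (1 + 2 * τ))) := by rw [← Real.rpow_mul hx0.le]
        _ ≤ _ := Real.rpow_le_rpow_of_exponent_le hx1 (by nlinarith)
    have h3 : 20 * c * ∑ q ∈ Icc 1 X, ψ q * ∑ l ∈ Icc 1 L, ∑ v ∈ Icc 1 ⌊(q : ℝ) * Y⌋₊,
          mm x ((v : ℝ) * (((q : ℝ) * ξ) * l)) ≤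
        180 * C₁ * Ψ * (x : ℝ) ^ (4 * (g / 40) + 6 * τ + κ) := by
      calc _ ≤ 20 * c * (C₁ * Ψ * (L : ℝ) ^ 2 * Y ^ (1 + τ) * (x : ℝ) ^ τ * (X : ℝ) ^ (1 + 2 * τ)) :=
            mul_le_mul_of_nonneg_left herr' (by positivity)
        _ = 20 * C₁ * Ψ * (L : ℝ) ^ 2 * (c * Y ^ (1 + τ)) * (x : ℝ) ^ τ * (X : ℝ) ^ (1 + 2 * τ) := by
            ring
        _ ≤ 20 * C₁ * Ψ * (x : ℝ) ^ (4 * (g / 40)) * (9 * (X : ℝ) ^ (2 * τ) * (x : ℝ) ^ τ) *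
            (x : ℝ) ^ τ * (X : ℝ) ^ (1 + 2 * τ) := by
            gcongr
        _ = 180 * C₁ * Ψ * (x : ℝ) ^ (4 * (g / 40)) * (x : ℝ) ^ τ * (x : ℝ) ^ τ *
            ((X : ℝ) ^ (2 * τ) * (X : ℝ) ^ (1 + 2 * τ)) := by ring
        _ ≤ 180 * C₁ * Ψ * (x : ℝ) ^ (4 * (g / 40)) * (x : ℝ) ^ τ * (x : ℝ) ^ τ *
            (x : ℝ) ^ (κ + 4 * τ) := mul_le_mul_of_nonneg_left hX2 (by positivity)
        _ = 180 * C₁ * Ψ * (x : ℝ) ^ (4 * (g / 40) + 6 * τ + κ) := by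
            have : (x : ℝ) ^ (4 * (g / 40) + 6 * τ + κ) = (x : ℝ) ^ (4 * (g / 40)) * (x : ℝ) ^ τ *
                (x : ℝ) ^ τ * (x : ℝ) ^ (κ + 4 * τ) := by
              rw [← Real.rpow_add hx0, ← Real.rpow_add hx0, ← Real.rpow_add hx0]
              congr 1
              ring
            rw [this]
            ring
    have h4 : 10 * c * ∑ q ∈ Icc 1 X, ψ q ≤ 10 * Ψ * (x : ℝ) ^ (4 * (g / 40) + 6 * τ + κ) := by
      have h5 : (1 : ℝ) ≤ (x : ℝ) ^ (4 * (g / 40) + 6 * τ + κ) := Real.one_le_rpow hx1 (by positivity)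
      have h6 : 0 ≤ ∑ q ∈ Icc 1 X, ψ q := sum_nonneg fun q _ => (hψ0 q).le
      calc 10 * c * ∑ q ∈ Icc 1 X, ψ q ≤ 10 * 1 * Ψ := by gcongr
        _ ≤ 10 * Ψ * (x : ℝ) ^ (4 * (g / 40) + 6 * τ + κ) := by nlinarith
    calc _ ≤ (x : ℝ) ^ (6 * (g / 40)) * (10 * Ψ * (x : ℝ) ^ (4 * (g / 40) + 6 * τ + κ) +
          180 * C₁ * Ψ * (x : ℝ) ^ (4 * (g / 40) + 6 * τ + κ)) :=
          mul_le_mul_of_nonneg_left (add_le_add h4 h3) (by positivity)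
      _ = (10 * Ψ + 180 * C₁ * Ψ) * (x : ℝ) ^ (1 - g / 2) := by
          have : (x : ℝ) ^ (1 - g / 2) = (x : ℝ) ^ (6 * (g / 40)) *
              (x : ℝ) ^ (4 * (g / 40) + 6 * τ + κ) := by
            rw [← Real.rpow_add hx0]
            congr 1
            rw [hτ]
            have : κ = 1 - g := by rw [hg]; ring
            rw [this]
            ring
          rw [this]
          ring
  have h5 := hlogp x (by omega)
  have hlogk : 0 < (Real.log x) ^ D.card := by positivity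
  have h6 : (x : ℝ) ^ (1 - g / 2) ≤ C₂ * (x : ℝ) ^ (-(g / 4)) * x / (Real.log x) ^ D.card := by
    rw [le_div_iff₀ hlogk]
    refine h5.trans (le_of_eq ?_)
    have : (x : ℝ) ^ (1 - g / 4) = (x : ℝ) ^ (-(g / 4)) * x := by
      rw [← Real.rpow_add_one hx0.ne']
      congr 1
      ring
    rw [this]
    ring
  have hA0 : 0 ≤ (x : ℝ) ^ (-(g / 4)) := by positivity
  calc _ ≤ 10 * C₀ * Ψ * c * x / (Real.log x) ^ D.card + (10 * Ψ + 180 * C₁ * Ψ) *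
        (C₂ * (x : ℝ) ^ (-(g / 4)) * x / (Real.log x) ^ D.card) :=
        add_le_add hmain (hE.trans (mul_le_mul_of_nonneg_left h6 (by positivity)))
    _ = (10 * C₀ * Ψ * c + (10 * Ψ + 180 * C₁ * Ψ) * C₂ * (x : ℝ) ^ (-(g / 4))) * x /
        (Real.log x) ^ D.card := by ring
    _ ≤ _ := by
        refine div_le_div_of_nonneg_right ?_ hlogk.le
        refine mul_le_mul_of_nonneg_right ?_ hx0.le
        have e1 : 0 ≤ (10 * Ψ + 180 * C₁ * Ψ) * C₂ * c := by positivity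
        have e2 : 0 ≤ 10 * C₀ * Ψ * (x : ℝ) ^ (-(g / 4)) := by positivity
        nlinarith

end Pool.Agent.U867.PM
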