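import Pool.Agent.N965.LN.Fej
import Pool.Agent.N965.LN.Cnt
import Pool.Agent.N965.LN.Ks
import Pool.Agent.N965.LN.Ps
import Pool.Agent.N965.LN.Psi
import Pool.Agent.N965.LN.Ftl

set_option autoImplicit false
set_option maxHeartbeats 4000000

/-! # Fejér weights in residue classes, and the sums of `min (H, 1 / (2 ‖v t l ξ‖))` (helper867) -/

namespace Pool.Agent.U867.PM

open Finset Pool.Agent.N965.LN Pool.Agent.N965.LN.Fej

/-- `min (H, 1 / (2 ‖x‖))` -/
noncomputable def mm (H : ℕ) (x : ℝ) : ℝ := if dn x = 0 then (H : ℝ) else min (H : ℝ) (1 / (2 * dn x))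

theorem mm_nonneg (H : ℕ) (x : ℝ) : 0 ≤ mm H x := by
  unfold mm
  have := dn_nonneg x
  split_ifs <;> positivity

theorem norm_D_le {K H : ℕ} (h : K ≤ H) (x : ℝ) : ‖D K x‖ ≤ mm H x := by
  have h' : (K : ℝ) ≤ H := by exact_mod_cast h
  unfold mm
  split_ifs with hx
  · exact (D_le K x).trans h'
  · exact le_min ((D_le K x).trans h') (D_le' K hx)

/-- `‖∑ e (n x)‖` over an arithmetic progression -/
theorem norm_prog (K r l : ℕ) (β γ : ℝ) :
    ‖∑ k ∈ range K, e (β * ((r + l * k : ℕ) : ℝ) + γ)‖ = ‖D K (β * l)‖ := by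
  have h : ∀ k ∈ range K, e (β * ((r + l * k : ℕ) : ℝ) + γ) = e (β * r + γ) * e ((k : ℝ) * (β * l)) := by
    intro k _
    rw [← e_add]
    congr 1
    push_cast
    ring
  rw [sum_congr rfl h, ← mul_sum, norm_mul, norm_e, one_mul]
  rfl

/-- the Fejér weight, at least `1` for `‖t‖ ≤ 1 / (2 V)` -/
noncomputable def W (V : ℕ) (t : ℝ) : ℝ := Real.pi ^ 2 / (4 * (V : ℝ) ^ 2) * ‖D V t‖ ^ 2

theorem W_nonneg (V : ℕ) (t : ℝ) : 0 ≤ W V t := by unfold W; positivity

theorem W_ge {V : ℕ} (hV : 1 ≤ V) {t : ℝ} (ht : dn t ≤ 1 / (2 * V)) : 1 ≤ W V t := by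
  have hV' : (0 : ℝ) < V := by exact_mod_cast hV
  have h := D_ge hV ht
  have hpi := Real.pi_pos
  unfold W
  calc (1 : ℝ) = Real.pi ^ 2 / (4 * (V : ℝ) ^ 2) * (2 * (V : ℝ) / Real.pi) ^ 2 := by
        field_simp
        norm_num
    _ ≤ _ := mul_le_mul_of_nonneg_left (pow_le_pow_left₀ (by positivity) h 2) (by positivity)

/-- the elements of a residue class below `x` -/
theorem class_eq (x r l : ℕ) (hr : r < l) :
    (range x).filter (fun n => n % l = r) =
      (range ((x + (l - 1 - r)) / l)).image (fun k => r + l * k) := by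
  have hl : 0 < l := by omega
  ext n
  simp only [mem_filter, mem_range, mem_image]
  constructor
  · rintro ⟨h1, h2⟩
    refine ⟨n / l, ?_, ?_⟩
    · rw [Nat.lt_iff_add_one_le, Nat.le_div_iff_mul_le hl]
      have h3 := Nat.div_add_mod n l
      have h4 : (n / l + 1) * l = l * (n / l) + l := by ring
      rw [h4]
      omega
    · have h3 := Nat.div_add_mod n l
      omega
  · rintro ⟨k, hk, rfl⟩
    refine ⟨?_, ?_⟩
    · rw [Nat.lt_iff_add_one_le, Nat.le_div_iff_mul_le hl] at hk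
      have h4 : (k + 1) * l = l * k + l := by ring
      rw [h4] at hk
      omega
    · rw [Nat.add_mul_mod_self_left]
      exact Nat.mod_eq_of_lt hr

theorem card_class (x r l : ℕ) (hr : r < l) :
    |(((x + (l - 1 - r)) / l : ℕ) : ℝ) - (x : ℝ) / l| ≤ 1 := by
  have hl : 0 < l := by omega
  have hl' : (0 : ℝ) < l := by exact_mod_cast hl
  set K := (x + (l - 1 - r)) / l with hK
  have h1 := Nat.div_add_mod (x + (l - 1 - r)) l
  have h2 := Nat.mod_lt (x + (l - 1 - r)) hl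
  rw [← hK] at h1
  have h3 : l * K ≤ x + l := by omega
  have h4 : x ≤ l * K + l := by omega
  have h3' : (l : ℝ) * K ≤ x + l := by exact_mod_cast h3
  have h4' : (x : ℝ) ≤ l * K + l := by exact_mod_cast h4
  rw [abs_le]
  constructor
  · have : (x : ℝ) / l ≤ K + 1 := by
      rw [div_le_iff₀ hl']
      linarith
    linarith
  · have : (K : ℝ) ≤ x / l + 1 := by
      rw [← sub_le_iff_le_add, le_div_iff₀ hl']
      linarith
    linarith

/-- the sum of the Fejér weight over a residue class -/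
theorem class_sum {V : ℕ} (hV : 1 ≤ V) (x r l : ℕ) (hr : r < l) (β γ : ℝ) :
    |∑ n ∈ (range x).filter (fun n => n % l = r), W V (β * n + γ) -
      (Real.pi ^ 2 / (4 * V) * x) / l| ≤
      Real.pi ^ 2 / (4 * V) + Real.pi ^ 2 / (2 * V) * ∑ v ∈ Icc 1 V, mm x ((v : ℝ) * (β * l)) := by
  have hV' : (0 : ℝ) < V := by exact_mod_cast hV
  have hl : 0 < l := by omega
  have hl1 : (1 : ℝ) ≤ l := by exact_mod_cast hl
  have hpi := Real.pi_pos
  set K := (x + (l - 1 - r)) / l with hK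
  have hinj : Set.InjOn (fun k => r + l * k) (range K : Set ℕ) := by
    intro a _ b _ hab
    have : l * a = l * b := by simpa using hab
    exact Nat.eq_of_mul_eq_mul_left hl this
  rw [class_eq x r l hr, sum_image hinj]
  have hKle : K ≤ x := by
    rcases Nat.eq_zero_or_pos K with h | h
    · omega
    · have h1 : l * K ≤ x + (l - 1 - r) := Nat.mul_div_le _ _
      have h2 : K - 1 ≤ l * (K - 1) := Nat.le_mul_of_pos_left _ hl
      have h3 : l * K = l * (K - 1) + l := by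
        obtain ⟨K', hK'⟩ : ∃ K', K = K' + 1 := ⟨K - 1, by omega⟩
        rw [hK']
        simp
        ring
      omega
  -- the Fourier expansion
  set S : ℤ → ℂ := fun a => ∑ k ∈ range K, e ((a : ℝ) * (β * ((r + l * k : ℕ) : ℝ) + γ)) with hS
  have h1 : ((∑ k ∈ range K, W V (β * ((r + l * k : ℕ) : ℝ) + γ) : ℝ) : ℂ) =
      ((Real.pi ^ 2 / (4 * (V : ℝ) ^ 2) : ℝ) : ℂ) *
        ∑ a ∈ Icc (-(V : ℤ)) V, (((V : ℝ) - |(a : ℝ)| : ℝ) : ℂ) * S a := by
    have h2 : ∀ k ∈ range K, ((W V (β * ((r + l * k : ℕ) : ℝ) + γ) : ℝ) : ℂ) =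
        ((Real.pi ^ 2 / (4 * (V : ℝ) ^ 2) : ℝ) : ℂ) * ∑ a ∈ Icc (-(V : ℤ)) V,
          (((V : ℝ) - |(a : ℝ)| : ℝ) : ℂ) * e ((a : ℝ) * (β * ((r + l * k : ℕ) : ℝ) + γ)) := by
      intro k _
      rw [fej]
      unfold W
      push_cast
      rfl
    rw [Complex.ofReal_sum, sum_congr rfl h2, ← mul_sum, sum_comm]
    congr 1
    refine sum_congr rfl fun a _ => ?_
    rw [hS, mul_sum]
  rw [sumIcc] at h1
  have hS0 : S 0 = K := by
    rw [hS]
    simp [e_zero]
  have hSn : ∀ a : ℤ, ‖S a‖ ≤ mm x ((a : ℝ) * (β * l)) := by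
    intro a
    have h2 : S a = ∑ k ∈ range K, e (((a : ℝ) * β) * ((r + l * k : ℕ) : ℝ) + (a : ℝ) * γ) := by
      rw [hS]
      refine sum_congr rfl fun k _ => ?_
      congr 1
      ring
    rw [h2, norm_prog]
    have h3 : (a : ℝ) * β * l = (a : ℝ) * (β * l) := by ring
    rw [h3]
    exact norm_D_le hKle _
  have hSn' : ∀ a : ℤ, ‖S (-a)‖ ≤ mm x ((a : ℝ) * (β * l)) := by
    intro a
    have h2 : S (-a) = ∑ k ∈ range K, e ((-((a : ℝ) * β)) * ((r + l * k : ℕ) : ℝ) + (-((a : ℝ) * γ))) := by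
      rw [hS]
      refine sum_congr rfl fun k _ => ?_
      congr 1
      push_cast
      ring
    rw [h2, norm_prog]
    have h3 : (-((a : ℝ) * β)) * l = -((a : ℝ) * (β * l)) := by ring
    rw [h3, D_neg]
    exact norm_D_le hKle _
  set T : ℂ := ∑ k ∈ range V, ((((V : ℝ) - |(((k : ℤ) + 1 : ℤ) : ℝ)| : ℝ) : ℂ) * S ((k : ℤ) + 1) +
    (((V : ℝ) - |((-((k : ℤ) + 1) : ℤ) : ℝ)| : ℝ) : ℂ) * S (-((k : ℤ) + 1))) with hT
  have hTn : ‖T‖ ≤ 2 * V * ∑ v ∈ Icc 1 V, mm x ((v : ℝ) * (β * l)) := by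
    rw [hT]
    refine (norm_sum_le _ _).trans ?_
    have h2 : ∑ v ∈ Icc 1 V, mm x ((v : ℝ) * (β * l)) =
        ∑ k ∈ range V, mm x (((k : ℝ) + 1) * (β * l)) := by
      have hI : Icc 1 V = (range V).image (fun k => k + 1) := by
        ext v
        simp only [mem_Icc, mem_image, mem_range]
        constructor
        · rintro ⟨a1, a2⟩
          exact ⟨v - 1, by omega, by omega⟩
        · rintro ⟨a, a1, rfl⟩
          omega
      rw [hI, sum_image (fun a _ b _ hab => by simpa using hab)]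
      refine sum_congr rfl fun k _ => ?_
      push_cast
      rfl
    rw [h2, mul_sum]
    refine sum_le_sum fun k hk => ?_
    rw [mem_range] at hk
    have hk' : (k : ℝ) + 1 ≤ V := by exact_mod_cast hk
    have h3 : abs ((V : ℝ) - |(((k : ℤ) + 1 : ℤ) : ℝ)|) ≤ V := by
      have : |(((k : ℤ) + 1 : ℤ) : ℝ)| = (k : ℝ) + 1 := by
        push_cast
        exact abs_of_nonneg (by positivity)
      rw [this, abs_of_nonneg (by linarith)]
      have : (0 : ℝ) ≤ k := Nat.cast_nonneg k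
      linarith
    have h4 : abs ((V : ℝ) - |((-((k : ℤ) + 1) : ℤ) : ℝ)|) ≤ V := by
      have : |((-((k : ℤ) + 1) : ℤ) : ℝ)| = |(((k : ℤ) + 1 : ℤ) : ℝ)| := by
        rw [Int.cast_neg, abs_neg]
      rw [this]
      exact h3
    have h5 := hSn ((k : ℤ) + 1)
    have h6 := hSn' ((k : ℤ) + 1)
    have h7 : ((((k : ℤ) + 1 : ℤ) : ℝ)) = (k : ℝ) + 1 := by push_cast; rfl
    rw [h7] at h5 h6
    have h8 := mm_nonneg x (((k : ℝ) + 1) * (β * l))
    calc _ ≤ ‖(((V : ℝ) - |(((k : ℤ) + 1 : ℤ) : ℝ)| : ℝ) : ℂ) * S ((k : ℤ) + 1)‖ +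
          ‖(((V : ℝ) - |((-((k : ℤ) + 1) : ℤ) : ℝ)| : ℝ) : ℂ) * S (-((k : ℤ) + 1))‖ := norm_add_le _ _
      _ ≤ V * mm x (((k : ℝ) + 1) * (β * l)) + V * mm x (((k : ℝ) + 1) * (β * l)) := by
          rw [norm_mul, norm_mul, Complex.norm_real, Complex.norm_real, Real.norm_eq_abs, Real.norm_eq_abs]
          exact add_le_add (mul_le_mul h3 h5 (norm_nonneg _) hV'.le)
            (mul_le_mul h4 h6 (norm_nonneg _) hV'.le)
      _ = _ := by ring
  have h9 : ((∑ k ∈ range K, W V (β * ((r + l * k : ℕ) : ℝ) + γ) -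
      Real.pi ^ 2 / (4 * V) * K : ℝ) : ℂ) = ((Real.pi ^ 2 / (4 * (V : ℝ) ^ 2) : ℝ) : ℂ) * T := by
    rw [Complex.ofReal_sub, h1, mul_add, hS0]
    have h10 : (((V : ℝ) - |((0 : ℤ) : ℝ)| : ℝ) : ℂ) = (V : ℂ) := by
      rw [Int.cast_zero, abs_zero, sub_zero]
      simp
    rw [h10]
    have h11 : ((Real.pi ^ 2 / (4 * (V : ℝ) ^ 2) : ℝ) : ℂ) * ((V : ℂ) * (K : ℂ)) =
        ((Real.pi ^ 2 / (4 * V) * K : ℝ) : ℂ) := by
      push_cast
      have : (V : ℂ) ≠ 0 := by exact_mod_cast hV'.ne'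
      field_simp
    rw [h11]
    ring
  have h12 : |∑ k ∈ range K, W V (β * ((r + l * k : ℕ) : ℝ) + γ) - Real.pi ^ 2 / (4 * V) * K| ≤
      Real.pi ^ 2 / (2 * V) * ∑ v ∈ Icc 1 V, mm x ((v : ℝ) * (β * l)) := by
    rw [← Real.norm_eq_abs, ← Complex.norm_real, h9, norm_mul, Complex.norm_real, Real.norm_eq_abs,
      abs_of_nonneg (by positivity)]
    refine (mul_le_mul_of_nonneg_left hTn (by positivity)).trans (le_of_eq ?_)
    generalize (∑ v ∈ Icc 1 V, mm x ((v : ℝ) * (β * l))) = Q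
    field_simp
    ring
  have h13 := card_class x r l hr
  rw [← hK] at h13
  have h14 : |Real.pi ^ 2 / (4 * V) * K - (Real.pi ^ 2 / (4 * V) * x) / l| ≤ Real.pi ^ 2 / (4 * V) := by
    have : Real.pi ^ 2 / (4 * V) * K - (Real.pi ^ 2 / (4 * V) * x) / l =
        Real.pi ^ 2 / (4 * V) * (K - x / l) := by ring
    rw [this, abs_mul, abs_of_nonneg (by positivity)]
    exact mul_le_of_le_one_right (by positivity) h13
  calc _ = |(∑ k ∈ range K, W V (β * ((r + l * k : ℕ) : ℝ) + γ) - Real.pi ^ 2 / (4 * V) * K) +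
        (Real.pi ^ 2 / (4 * V) * K - (Real.pi ^ 2 / (4 * V) * x) / l)| := by
          congr 1
          ring
    _ ≤ _ := abs_add_le _ _
    _ ≤ _ := by linarith

end Pool.Agent.U867.PM
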