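import Pool.Agent.U867.PM.Core
import Pool.Agent.N965.LN.Sch
import Pool.Agent.N965.LN.Low
import Pool.Agent.N965.LN.Log

set_option autoImplicit false
set_option maxHeartbeats 4000000

/-! # Multiples of `ξ` with sieve conditions on the factor: final form of the count (helper867) -/

namespace Pool.Agent.U867.PM

open Finset Pool.Agent.N965.LN

/-- `|α - a / q| ≤ c ψ(q) / q` for some integer `a` and some `1 ≤ q ≤ N` -/
def Exc (N c : ℝ) (ψ : ℕ → ℝ) (α : ℝ) : Prop :=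
  ∃ (a : ℤ) (q : ℕ), 1 ≤ q ∧ (q : ℝ) ≤ N ∧ |α - (a : ℝ) / q| ≤ c * ψ q / q

theorem indep_one {ξ : ℝ} (hξ : Irrational ξ) : Indep (fun _ : Fin 1 => ξ) := by
  intro a a₀ h
  rw [Fin.sum_univ_one] at h
  funext i
  have hi : i = 0 := Subsingleton.elim _ _
  rw [hi]
  by_contra h0
  have h1 : a 0 ≠ 0 := h0
  have h2 : ((a 0 : ℤ) : ℝ) ≠ 0 := by exact_mod_cast h1
  apply hξ
  refine ⟨-(a₀ : ℚ) / (a 0 : ℚ), ?_⟩
  push_cast
  rw [div_eq_iff h2]
  linarith

theorem ksum_one {ξ : ℝ} (hξ : Irrational ξ) (ha : IsAlgebraic ℚ ξ) : Ksum (fun _ : Fin 1 => ξ) :=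
  t_KS 1 _ (t_CNT 1 _ (t_SCH 1 _ le_rfl (fun _ => ha) (indep_one hξ)))

open scoped Classical in
theorem full {ξ : ℝ} (hξ : Irrational ξ) (ha : IsAlgebraic ℚ ξ) (κ : ℝ) (hκ : κ < 1)
    (D : Finset ℕ) (hD : D.Nonempty) (ψ : ℕ → ℝ) (hψ0 : ∀ n, 0 ≤ ψ n) (hψ : Antitone ψ)
    (hs : Summable ψ) :
    ∃ C δ : ℝ, 0 < C ∧ 0 < δ ∧ ∀ N : ℕ, 2 ≤ N → ∀ c : ℝ, 0 < c → c ≤ 1 → ∀ ζ : ℝ,
      (((Icc 1 N).filter (fun n => (∀ h ∈ D, (n + h).Prime) ∧
        Exc ((N : ℝ) ^ κ) c ψ (n * ξ + ζ))).card : ℝ) ≤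
        C * (c + (N : ℝ) ^ (-δ)) * N / (Real.log N) ^ D.card := by
  set κ' := max κ 0 with hκ'
  have hκ0 : 0 ≤ κ' := le_max_right _ _
  have hκκ : κ ≤ κ' := le_max_left _ _
  have hκ1 : κ' < 1 := max_lt hκ one_pos
  set τ := (1 - κ') / 24 with hτ
  have hτ0 : 0 < τ := by rw [hτ]; linarith
  set φ : ℕ → ℝ := fun n => ((n : ℝ) + 1) ^ (-(1 + τ)) with hφ
  have hφ0 : ∀ n, 0 < φ n := fun n => by
    simp only [hφ]
    positivity
  have hφa : Antitone φ := by
    intro a b hab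
    simp only [hφ]
    apply Real.rpow_le_rpow_of_nonpos (by positivity) _ (by linarith)
    have : (a : ℝ) ≤ b := by exact_mod_cast hab
    linarith
  have hφs : Summable φ := by
    have h1 : Summable (fun n : ℕ => ((n : ℝ)) ^ (-(1 + τ))) :=
      Real.summable_nat_rpow.2 (by linarith)
    have h2 := (summable_nat_add_iff 1).2 h1
    refine h2.congr fun n => ?_
    simp only [hφ]
    push_cast
    rfl
  set ψ' : ℕ → ℝ := fun n => ψ n + φ n with hψ'
  have hψ'0 : ∀ n, 0 < ψ' n := fun n => by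
    have h1 := hφ0 n
    have h2 := hψ0 n
    simp only [hψ']
    linarith
  have hψ'a : Antitone ψ' := fun a b hab => add_le_add (hψ hab) (hφa hab)
  have hψ's : Summable ψ' := hs.add hφs
  have hlow : ∀ n : ℕ, 1 ≤ n → (n : ℝ) ^ (-(1 + (1 - κ') / 24)) ≤ (2 : ℝ) ^ (1 + (1 - κ') / 24) * ψ' n := by
    intro n hn
    rw [← hτ]
    have hn' : (1 : ℝ) ≤ n := by exact_mod_cast hn
    have h1 : (2 * (n : ℝ)) ^ (-(1 + τ)) ≤ φ n := by
      simp only [hφ]
      exact Real.rpow_le_rpow_of_nonpos (by positivity) (by linarith) (by linarith)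
    have h2 : (2 * (n : ℝ)) ^ (-(1 + τ)) = (2 : ℝ) ^ (-(1 + τ)) * (n : ℝ) ^ (-(1 + τ)) :=
      Real.mul_rpow (by norm_num) (by positivity)
    have h3 : (2 : ℝ) ^ (1 + τ) * (2 : ℝ) ^ (-(1 + τ)) = 1 := by
      rw [← Real.rpow_add (by norm_num)]
      simp
    have h4 : (0 : ℝ) < (2 : ℝ) ^ (1 + τ) := by positivity
    calc (n : ℝ) ^ (-(1 + τ)) = (2 : ℝ) ^ (1 + τ) * (2 * (n : ℝ)) ^ (-(1 + τ)) := by
          rw [h2, ← mul_assoc, h3, one_mul]
      _ ≤ (2 : ℝ) ^ (1 + τ) * φ n := mul_le_mul_of_nonneg_left h1 h4.le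
      _ ≤ (2 : ℝ) ^ (1 + τ) * ψ' n := by
          refine mul_le_mul_of_nonneg_left ?_ h4.le
          have := hψ0 n
          simp only [hψ']
          linarith
  obtain ⟨C, hC, x₀, hx₀, hcore⟩ := core (ksum_one hξ ha) D hD κ' hκ0 hκ1 ψ' hψ'0 hψ'a hψ's hlow
  obtain ⟨C₃, hC₃, hlogp⟩ := log_pow_le D.card (1 / 2) (3 / 4) (by norm_num)
  set δ := (1 - κ') / 4 with hδ
  have hδ0 : 0 < δ := by rw [hδ]; linarith
  have hδ1 : δ ≤ 1 / 4 := by rw [hδ]; linarith
  set C₄ : ℝ := (x₀ : ℝ) ^ δ * (Real.log x₀) ^ D.card with hC₄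
  have hC₄0 : 0 ≤ C₄ := by
    have : 0 ≤ Real.log x₀ := Real.log_natCast_nonneg x₀
    positivity
  refine ⟨2 * C + C₃ + C₄, δ, by positivity, hδ0, fun N hN c hc hc1 ζ => ?_⟩
  have hN1 : (1 : ℝ) ≤ N := by exact_mod_cast (by omega : 1 ≤ N)
  have hN0 : (0 : ℝ) < N := by linarith
  have hlog : 0 < Real.log N := Real.log_pos (by exact_mod_cast (by omega : 1 < N))
  have hlogk : 0 < (Real.log N) ^ D.card := by positivity
  have hNδ : 0 < (N : ℝ) ^ (-δ) := by positivity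
  rcases lt_or_ge N x₀ with hlt | hge
  · -- small `N`
    have h1 : (((Icc 1 N).filter (fun n => (∀ h ∈ D, (n + h).Prime) ∧
        Exc ((N : ℝ) ^ κ) c ψ (n * ξ + ζ))).card : ℝ) ≤ N := by
      have := card_filter_le (Icc 1 N) (fun n => (∀ h ∈ D, (n + h).Prime) ∧
        Exc ((N : ℝ) ^ κ) c ψ (n * ξ + ζ))
      rw [Nat.card_Icc, Nat.add_sub_cancel] at this
      exact_mod_cast this
    refine h1.trans ?_
    rw [le_div_iff₀ hlogk]
    have hNx : (N : ℝ) ≤ x₀ := by exact_mod_cast hlt.le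
    have h2 : (Real.log N) ^ D.card ≤ (Real.log x₀) ^ D.card :=
      pow_le_pow_left₀ hlog.le (Real.log_le_log hN0 hNx) _
    have h3 : (x₀ : ℝ) ^ (-δ) ≤ (N : ℝ) ^ (-δ) :=
      Real.rpow_le_rpow_of_nonpos hN0 hNx (by linarith)
    have hx0 : (0 : ℝ) < x₀ := by linarith
    have h4 : (Real.log x₀) ^ D.card = C₄ * (x₀ : ℝ) ^ (-δ) := by
      have h5 : (x₀ : ℝ) ^ δ * (x₀ : ℝ) ^ (-δ) = 1 := by
        rw [← Real.rpow_add hx0]
        simp
      rw [hC₄]
      calc (Real.log x₀) ^ D.card = (x₀ : ℝ) ^ δ * (x₀ : ℝ) ^ (-δ) * (Real.log x₀) ^ D.card := by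
            rw [h5, one_mul]
        _ = _ := by ring
    calc (N : ℝ) * (Real.log N) ^ D.card ≤ N * (C₄ * (x₀ : ℝ) ^ (-δ)) := by
          rw [← h4]
          exact mul_le_mul_of_nonneg_left h2 hN0.le
      _ ≤ N * (C₄ * (N : ℝ) ^ (-δ)) := by gcongr
      _ ≤ (2 * C + C₃ + C₄) * (c + (N : ℝ) ^ (-δ)) * N := by
          have e1 : C₄ * (N : ℝ) ^ (-δ) ≤ (2 * C + C₃ + C₄) * (c + (N : ℝ) ^ (-δ)) := by
            apply mul_le_mul (by linarith) (by linarith) hNδ.le (by positivity)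
          calc N * (C₄ * (N : ℝ) ^ (-δ)) ≤ N * ((2 * C + C₃ + C₄) * (c + (N : ℝ) ^ (-δ))) :=
                mul_le_mul_of_nonneg_left e1 hN0.le
            _ = _ := by ring
  · -- large `N`
    set c' := max c ((N : ℝ) ^ (-δ)) with hc'
    have hc'1 : c' ≤ 1 := by
      refine max_le hc1 ?_
      exact Real.rpow_le_one_of_one_le_of_nonpos hN1 (by linarith)
    have hc'0 : 0 < c' := lt_of_lt_of_le hc (le_max_left _ _)
    have hmain := hcore N hge c' (le_max_right _ _) hc'1 (ξ + ζ)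
    -- the injection `n ↦ n - 1`
    have hsub : (Icc 1 N).filter (fun n => (∀ h ∈ D, (n + h).Prime) ∧
        Exc ((N : ℝ) ^ κ) c ψ (n * ξ + ζ)) ⊆
        ((range N).filter (fun m => Rough D N m ∧ ∃ q : ℕ, 1 ≤ q ∧ (q : ℝ) ≤ (N : ℝ) ^ κ' ∧
          dn (((q : ℝ) * ξ) * m + (q : ℝ) * (ξ + ζ)) ≤ c' * ψ' q)).image (fun m => m + 1) ∪
        Icc 1 ⌊Real.sqrt N⌋₊ := by
      intro n hn
      rw [mem_filter, mem_Icc] at hn
      obtain ⟨⟨h1, h2⟩, h3, a, q, h4, h5, h6⟩ := hn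
      rw [mem_union, mem_image]
      by_cases hR : Rough D N (n - 1)
      · left
        refine ⟨n - 1, ?_, by omega⟩
        rw [mem_filter, mem_range]
        refine ⟨by omega, hR, q, h4, h5.trans (Real.rpow_le_rpow_of_exponent_le hN1 hκκ), ?_⟩
        have hq0 : (0 : ℝ) < q := by exact_mod_cast h4
        have h7 : ((n - 1 : ℕ) : ℝ) = n - 1 := by
          rw [Nat.cast_sub h1, Nat.cast_one]
        have h8 : ((q : ℝ) * ξ) * ((n - 1 : ℕ) : ℝ) + (q : ℝ) * (ξ + ζ) = q * (n * ξ + ζ) := by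
          rw [h7]
          ring
        rw [h8]
        have h9 : dn (q * (n * ξ + ζ)) ≤ |q * (n * ξ + ζ) - (a : ℝ)| := round_le _ a
        refine h9.trans ?_
        have h10 : q * (n * ξ + ζ) - (a : ℝ) = q * ((n * ξ + ζ) - a / q) := by
          field_simp
        rw [h10, abs_mul, abs_of_pos hq0]
        calc (q : ℝ) * |(n * ξ + ζ) - a / q| ≤ q * (c * ψ q / q) :=
              mul_le_mul_of_nonneg_left h6 hq0.le
          _ = c * ψ q := by field_simp
          _ ≤ c' * ψ' q := by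
              refine mul_le_mul (le_max_left _ _) ?_ (hψ0 q) hc'0.le
              have := hφ0 q
              simp only [hψ']
              linarith
      · right
        unfold Rough at hR
        push Not at hR
        obtain ⟨p, hp, -, hpN, d, hd, hdvd⟩ := hR
        have h7 : n - 1 + (d + 1) = n + d := by omega
        rw [h7] at hdvd
        have h8 : p = n + d := (Nat.prime_dvd_prime_iff_eq hp (h3 d hd)).1 hdvd
        rw [mem_Icc]
        refine ⟨h1, Nat.le_floor ?_⟩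
        have : (n : ℝ) ≤ p := by
          rw [h8]
          exact_mod_cast Nat.le_add_right n d
        linarith
    have h1 : (((Icc 1 N).filter (fun n => (∀ h ∈ D, (n + h).Prime) ∧
        Exc ((N : ℝ) ^ κ) c ψ (n * ξ + ζ))).card : ℝ) ≤
        (((range N).filter (fun m => Rough D N m ∧ ∃ q : ℕ, 1 ≤ q ∧ (q : ℝ) ≤ (N : ℝ) ^ κ' ∧
          dn (((q : ℝ) * ξ) * m + (q : ℝ) * (ξ + ζ)) ≤ c' * ψ' q)).card : ℝ) + Real.sqrt N := by
      have h2 := (card_le_card hsub).trans (card_union_le _ _)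
      rw [Nat.card_Icc, Nat.add_sub_cancel] at h2
      have h3 := (Nat.cast_le (α := ℝ)).2 (h2.trans (Nat.add_le_add_right card_image_le _))
      push_cast at h3
      refine h3.trans ?_
      gcongr
      exact Nat.floor_le (Real.sqrt_nonneg _)
    have h2 : Real.sqrt N ≤ C₃ * (N : ℝ) ^ (-δ) * N / (Real.log N) ^ D.card := by
      rw [le_div_iff₀ hlogk, Real.sqrt_eq_rpow]
      refine (hlogp N (by omega)).trans ?_
      have h3 : (N : ℝ) ^ (3 / 4 : ℝ) ≤ (N : ℝ) ^ (-δ) * N := by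
        rw [← Real.rpow_add_one hN0.ne']
        exact Real.rpow_le_rpow_of_exponent_le hN1 (by linarith)
      calc C₃ * (N : ℝ) ^ (3 / 4 : ℝ) ≤ C₃ * ((N : ℝ) ^ (-δ) * N) :=
            mul_le_mul_of_nonneg_left h3 hC₃.le
        _ = _ := by ring
    have h3 : c' ≤ c + (N : ℝ) ^ (-δ) := max_le (by linarith) (by linarith)
    have h4 : C * (c' + (N : ℝ) ^ (-δ)) * N / (Real.log N) ^ D.card ≤
        2 * C * (c + (N : ℝ) ^ (-δ)) * N / (Real.log N) ^ D.card := by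
      refine div_le_div_of_nonneg_right ?_ hlogk.le
      refine mul_le_mul_of_nonneg_right ?_ hN0.le
      calc C * (c' + (N : ℝ) ^ (-δ)) ≤ C * (2 * (c + (N : ℝ) ^ (-δ))) := by
            refine mul_le_mul_of_nonneg_left ?_ hC.le
            linarith
        _ = _ := by ring
    refine h1.trans ((add_le_add (hmain.trans h4) h2).trans ?_)
    rw [← add_div]
    refine div_le_div_of_nonneg_right ?_ hlogk.le
    rw [← add_mul]
    refine mul_le_mul_of_nonneg_right ?_ hN0.le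
    have e1 : 0 ≤ C₄ * (c + (N : ℝ) ^ (-δ)) := by positivity
    have e2 : 0 ≤ C₃ * c := by positivity
    nlinarith

/-- Chebyshev's lower bound -/
theorem pi_lower (N : ℕ) (hN : 2 ≤ N) :
    (N : ℝ) / Real.log N ≤ 8 * (((Icc 1 N).filter (fun p => p.Prime)).card : ℝ) := by
  classical
  have hN2 : (2 : ℝ) ≤ N := by exact_mod_cast hN
  have hlog : 0 < Real.log N := Real.log_pos (by linarith)
  have h1 := Chebyshev.psi_ge N
  have h2 := Chebyshev.psi_le_primeCounting_mul_log N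
  have h3 : (Nat.primeCounting N : ℝ) = (((Icc 1 N).filter (fun p => p.Prime)).card : ℝ) := by
    rw [Nat.primeCounting, Nat.primeCounting', Nat.count_eq_card_filter_range]
    congr 2
    ext p
    simp only [mem_filter, mem_range, mem_Icc]
    constructor
    · rintro ⟨a, b⟩
      exact ⟨⟨b.one_lt.le, by omega⟩, b⟩
    · rintro ⟨a, b⟩
      exact ⟨by omega, b⟩
  rw [h3] at h2
  have h4 : Real.log ((N : ℝ) + 1) ≤ Real.log 3 + ((N : ℝ) - 2) / 3 := by
    have h5 : Real.log (((N : ℝ) + 1) / 3) ≤ ((N : ℝ) + 1) / 3 - 1 :=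
      Real.log_le_sub_one_of_pos (by positivity)
    rw [Real.log_div (by positivity) (by norm_num)] at h5
    linarith
  have h5 : Real.log 3 ≤ 2 * Real.log 2 - 1 / 4 := by
    have h6 : Real.log (3 / 4) ≤ 3 / 4 - 1 := Real.log_le_sub_one_of_pos (by norm_num)
    rw [Real.log_div (by norm_num) (by norm_num)] at h6
    have h7 : Real.log 4 = 2 * Real.log 2 := by
      rw [show (4 : ℝ) = 2 ^ 2 by norm_num, Real.log_pow]
      norm_num
    linarith
  have h6 : (0.69 : ℝ) < Real.log 2 := by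
    have := Real.log_two_gt_d9
    linarith
  have h7 : (N : ℝ) / 8 ≤ N * Real.log 2 - Real.log (N + 1) := by nlinarith
  rw [div_le_iff₀ hlog]
  nlinarith

end Pool.Agent.U867.PM
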