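import Pool.Agent.U867.PM.Sieve
import Pool.Agent.U867.PM.Sums

set_option autoImplicit false
set_option maxHeartbeats 4000000

/-! # Multiples of `ξ` with sieve conditions on the factor: the count (helper867) -/

namespace Pool.Agent.U867.PM

open Finset Pool.Agent.N965.LN Pool.Agent.N965.LN.Fej

/-- no prime `≤ √x` divides `m + d + 1`, `d ∈ D` -/
def Rough (D : Finset ℕ) (x m : ℕ) : Prop :=
  ∀ p : ℕ, p.Prime → 0 < p → (p : ℝ) ≤ Real.sqrt x → ∀ d ∈ D, ¬ p ∣ m + (d + 1)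

theorem pi_sq_le : Real.pi ^ 2 ≤ 10 := by
  have h1 := Real.pi_lt_d4
  have h2 := Real.pi_pos
  nlinarith

open scoped Classical in
/-- one denominator -/
theorem one_q (D : Finset ℕ) (ξ θ : ℝ) (x : ℕ) (C₀ : ℝ)
    (hsieve : ∀ w : ℕ → ℝ, (∀ n, 0 ≤ w n) → ∀ A : ℝ, 0 ≤ A → ∀ Er : ℝ, 0 ≤ Er →
      (∀ l : ℕ, 1 ≤ l → (l : ℝ) ≤ (x : ℝ) ^ (2 * θ) → ∀ r < l,
        |∑ n ∈ (range x).filter (fun n => n % l = r), w n - A / l| ≤ Er) →
      ∑ n ∈ (range x).filter (fun n => Rough D x n), w n ≤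
        C₀ * A / (Real.log x) ^ D.card + (x : ℝ) ^ (6 * θ) * Er)
    (hC₀ : 0 ≤ C₀) (hlog : 0 < Real.log x)
    (γ ρ' : ℝ) (hρ' : 0 < ρ') (q Z : ℕ) (hZ : 1 / (2 * min ρ' (1 / 2)) < (Z : ℝ) + 1) :
    (((range x).filter (fun m => Rough D x m ∧
      dn (((q : ℝ) * ξ) * m + (q : ℝ) * γ) ≤ ρ')).card : ℝ) ≤
      C₀ * (10 * ρ' * x) / (Real.log x) ^ D.card + (x : ℝ) ^ (6 * θ) *
        (10 * ρ' + 20 * ρ' * ∑ l ∈ Icc 1 ⌊(x : ℝ) ^ (2 * θ)⌋₊, ∑ v ∈ Icc 1 Z,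
          mm x ((v : ℝ) * (((q : ℝ) * ξ) * l))) := by
  set ρ := min ρ' (1 / 2) with hρ
  have hρ0 : 0 < ρ := lt_min hρ' (by norm_num)
  have hρ1 : ρ ≤ 1 / 2 := min_le_right _ _
  have hρ2 : ρ ≤ ρ' := min_le_left _ _
  have hinv1 : 1 ≤ 1 / (2 * ρ) := by
    rw [le_div_iff₀ (by positivity)]
    linarith
  set V := ⌊1 / (2 * ρ)⌋₊ with hV
  have hV1 : 1 ≤ V := Nat.le_floor (by rw [Nat.cast_one]; exact hinv1)
  have hV1' : (1 : ℝ) ≤ V := by exact_mod_cast hV1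
  have hV0 : (0 : ℝ) < V := by linarith
  have hVle : (V : ℝ) ≤ 1 / (2 * ρ) := Nat.floor_le (by positivity)
  have hVlt : 1 / (2 * ρ) < V + 1 := Nat.lt_floor_add_one _
  have hVZ : V ≤ Z := by
    have : (V : ℝ) < (Z : ℝ) + 1 := lt_of_le_of_lt hVle hZ
    have : V < Z + 1 := by exact_mod_cast this
    omega
  have hρV : ρ ≤ 1 / (2 * V) := by
    rw [le_div_iff₀ (by positivity)] at hVle ⊢
    linarith
  have hVρ : 1 / (V : ℝ) ≤ 4 * ρ := by
    rw [div_le_iff₀ hV0]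
    rw [div_lt_iff₀ (by positivity)] at hVlt
    nlinarith
  have hpi := Real.pi_pos
  have hpi2 := pi_sq_le
  have hc1 : Real.pi ^ 2 / (4 * V) ≤ 10 * ρ' := by
    calc Real.pi ^ 2 / (4 * V) = Real.pi ^ 2 / 4 * (1 / V) := by field_simp
      _ ≤ 10 / 4 * (4 * ρ) := by
          refine mul_le_mul (by linarith) hVρ (by positivity) (by norm_num)
      _ ≤ 10 * ρ' := by linarith
  have hc2 : Real.pi ^ 2 / (2 * V) ≤ 20 * ρ' := by
    have : Real.pi ^ 2 / (2 * V) = 2 * (Real.pi ^ 2 / (4 * V)) := by field_simp; norm_num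
    rw [this]
    linarith
  set Q : ℝ := ∑ l ∈ Icc 1 ⌊(x : ℝ) ^ (2 * θ)⌋₊, ∑ v ∈ Icc 1 Z, mm x ((v : ℝ) * (((q : ℝ) * ξ) * l)) with hQ
  have hQ0 : 0 ≤ Q := sum_nonneg fun l _ => sum_nonneg fun v _ => mm_nonneg _ _
  have h1 := hsieve (fun n => W V (((q : ℝ) * ξ) * n + (q : ℝ) * γ)) (fun n => W_nonneg _ _)
    (Real.pi ^ 2 / (4 * V) * x) (by positivity) (Real.pi ^ 2 / (4 * V) + Real.pi ^ 2 / (2 * V) * Q)
    (by positivity) (fun l hl1 hl2 r hr => by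
      refine (class_sum hV1 x r l hr ((q : ℝ) * ξ) ((q : ℝ) * γ)).trans ?_
      refine add_le_add le_rfl (mul_le_mul_of_nonneg_left ?_ (by positivity))
      calc ∑ v ∈ Icc 1 V, mm x ((v : ℝ) * (((q : ℝ) * ξ) * l))
          ≤ ∑ v ∈ Icc 1 Z, mm x ((v : ℝ) * (((q : ℝ) * ξ) * l)) :=
            sum_le_sum_of_subset_of_nonneg (Icc_subset_Icc_right hVZ) fun _ _ _ => mm_nonneg _ _
        _ ≤ Q := single_le_sum (f := fun l : ℕ => ∑ v ∈ Icc 1 Z, mm x ((v : ℝ) * (((q : ℝ) * ξ) * l)))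
            (fun l _ => sum_nonneg fun v _ => mm_nonneg _ _)
            (mem_Icc.2 ⟨hl1, Nat.le_floor hl2⟩))
  have h2 : (((range x).filter (fun m => Rough D x m ∧
      dn (((q : ℝ) * ξ) * m + (q : ℝ) * γ) ≤ ρ')).card : ℝ) ≤
      ∑ n ∈ (range x).filter (fun n => Rough D x n), W V (((q : ℝ) * ξ) * n + (q : ℝ) * γ) := by
    calc _ = ∑ n ∈ (range x).filter (fun m => Rough D x m ∧
          dn (((q : ℝ) * ξ) * m + (q : ℝ) * γ) ≤ ρ'), (1 : ℝ) := by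
          rw [sum_const, nsmul_eq_mul, mul_one]
      _ ≤ ∑ n ∈ (range x).filter (fun m => Rough D x m ∧
          dn (((q : ℝ) * ξ) * m + (q : ℝ) * γ) ≤ ρ'), W V (((q : ℝ) * ξ) * n + (q : ℝ) * γ) := by
          refine sum_le_sum fun n hn => ?_
          rw [mem_filter] at hn
          refine W_ge hV1 (le_trans ?_ hρV)
          exact le_min hn.2.2 (abs_sub_round _)
      _ ≤ _ := by
          refine sum_le_sum_of_subset_of_nonneg ?_ fun _ _ _ => W_nonneg _ _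
          intro n hn
          rw [mem_filter] at hn ⊢
          exact ⟨hn.1, hn.2.1⟩
  refine h2.trans (h1.trans ?_)
  have hx0 : (0 : ℝ) ≤ x := Nat.cast_nonneg x
  have hx6 : (0 : ℝ) ≤ (x : ℝ) ^ (6 * θ) := by positivity
  refine add_le_add ?_ ?_
  · refine div_le_div_of_nonneg_right (mul_le_mul_of_nonneg_left ?_ hC₀) (by positivity)
    exact mul_le_mul_of_nonneg_right hc1 hx0
  · refine mul_le_mul_of_nonneg_left ?_ hx6
    exact add_le_add hc1 (mul_le_mul_of_nonneg_right hc2 hQ0)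

/-- auxiliary: the power of the logarithm -/
theorem log_pow_le (k : ℕ) (a b : ℝ) (hab : a < b) : ∃ C : ℝ, 0 < C ∧ ∀ x : ℕ, 1 ≤ x →
    (x : ℝ) ^ a * (Real.log x) ^ k ≤ C * (x : ℝ) ^ b := by
  have hd : 0 < (b - a) / (k + 1) := div_pos (by linarith) (by positivity)
  refine ⟨((1 : ℝ) / ((b - a) / (k + 1))) ^ k + 1, by positivity, fun x hx => ?_⟩
  have hx1 : (1 : ℝ) ≤ x := by exact_mod_cast hx
  have hx0 : (0 : ℝ) < x := by linarith
  have h1 : Real.log x ≤ (x : ℝ) ^ ((b - a) / (k + 1)) / ((b - a) / (k + 1)) :=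
    Real.log_le_rpow_div hx0.le hd
  have h2 : (Real.log x) ^ k ≤ ((x : ℝ) ^ ((b - a) / (k + 1)) / ((b - a) / (k + 1))) ^ k :=
    pow_le_pow_left₀ (Real.log_nonneg hx1) h1 k
  have h3 : ((x : ℝ) ^ ((b - a) / (k + 1))) ^ k ≤ (x : ℝ) ^ (b - a) := by
    rw [← Real.rpow_natCast, ← Real.rpow_mul hx0.le]
    refine Real.rpow_le_rpow_of_exponent_le hx1 ?_
    rw [div_mul_eq_mul_div, div_le_iff₀ (by positivity)]
    nlinarith [Nat.cast_nonneg (α := ℝ) k]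
  have h4 : (Real.log x) ^ k ≤ ((1 : ℝ) / ((b - a) / (k + 1))) ^ k * (x : ℝ) ^ (b - a) := by
    refine h2.trans ?_
    rw [div_eq_mul_one_div, mul_pow, mul_comm]
    exact mul_le_mul_of_nonneg_left h3 (by positivity)
  calc (x : ℝ) ^ a * (Real.log x) ^ k
      ≤ (x : ℝ) ^ a * (((1 : ℝ) / ((b - a) / (k + 1))) ^ k * (x : ℝ) ^ (b - a)) :=
        mul_le_mul_of_nonneg_left h4 (by positivity)
    _ = ((1 : ℝ) / ((b - a) / (k + 1))) ^ k * (x : ℝ) ^ b := by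
        have : (x : ℝ) ^ b = (x : ℝ) ^ a * (x : ℝ) ^ (b - a) := by
          rw [← Real.rpow_add hx0]
          congr 1
          ring
        rw [this]
        ring
    _ ≤ _ := by
        refine mul_le_mul_of_nonneg_right ?_ (by positivity)
        linarith

end Pool.Agent.U867.PM
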