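import Pool.Agent.N893.PG.Rough
import Pool.Agent.Helper601.Selberg2

set_option autoImplicit false
set_option maxHeartbeats 4000000

/-! # Weighted upper bound sieve: nonnegative weights which are well distributed in residue classes

The sum of a nonnegative weight over the integers `n < x` such that the `n + d + 1`, `d ∈ D`, have no
small prime factors (helper867; the unweighted case is `Pool.Agent.N893.PG.rough_shift`). -/

namespace Pool.Agent.U867.PM

open Finset Pool.Agent.H646 Pool.Agent.H646.Sv1M Pool.Agent.H646.Sv2M Pool.Agent.H646.Sv3M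
open Pool.Agent.N893.PG

/-- the weighted sieve instance -/
noncomputable def svW {k : ℕ} (hk : 1 ≤ k) (d : Fin k → ℕ) (x y : ℕ) (w : ℕ → ℝ)
    (hw : ∀ n, 0 ≤ w n) (A : ℝ) : BoundingSieve where
  support := (range x).image (fun n => fv d n)
  prodPrimes := ∏ p ∈ PR k y, p
  prodPrimes_squarefree := PR_squarefree k y
  weights := fun m => ∑ n ∈ (range x).filter (fun n => fv d n = m), w n
  weights_nonneg := fun _ => sum_nonneg fun n _ => hw n
  totalMass := A
  nu := nuT d
  nu_mult := ArithmeticFunction.IsMultiplicative.prodPrimeFactors _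
  nu_pos_of_prime := by
    intro p hp _
    rw [nuT_prime d hp]
    have h1 : (0:ℝ) < rho d p := by exact_mod_cast Pool.Agent.H646.Sv1M.rho_pos hk d p
    have h2 : (0:ℝ) < p := by exact_mod_cast hp.pos
    positivity
  nu_lt_one_of_prime := by
    intro p hp hpd
    rw [nuT_prime d hp]
    have h2 : (0:ℝ) < p := by exact_mod_cast hp.pos
    rw [div_lt_one h2]
    exact_mod_cast (Pool.Agent.H646.Sv1M.rho_le d p).trans_lt (PR_prime' (mem_PR_of_dvd hp hpd)).2.1

section

variable {k : ℕ} (hk : 1 ≤ k) (d : Fin k → ℕ) (x y : ℕ) (w : ℕ → ℝ) (hw : ∀ n, 0 ≤ w n) (A : ℝ)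

include hk in
theorem sum_fiber (F : ℕ → ℝ → ℝ) : ∑ m ∈ (range x).image (fun n => fv d n),
    F m (∑ n ∈ (range x).filter (fun n => fv d n = m), w n) = ∑ n ∈ range x, F (fv d n) (w n) := by
  rw [sum_image (fun a _ b _ hab => fv_injective hk d hab)]
  refine sum_congr rfl fun n hn => ?_
  congr 1
  have : (range x).filter (fun n' => fv d n' = fv d n) = {n} := by
    ext a
    rw [mem_filter, mem_singleton]
    constructor
    · rintro ⟨_, h⟩
      exact fv_injective hk d h
    · rintro rfl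
      exact ⟨hn, rfl⟩
  rw [this, sum_singleton]

theorem multSum_W (l : ℕ) :
    (svW hk d x y w hw A).multSum l = ∑ n ∈ (range x).filter (fun n => l ∣ fv d n), w n := by
  unfold BoundingSieve.multSum
  change ∑ m ∈ (range x).image (fun n => fv d n),
    (if l ∣ m then (∑ n ∈ (range x).filter (fun n => fv d n = m), w n) else 0) = _
  rw [sum_fiber hk d x w (fun m t => if l ∣ m then t else 0), sum_filter]

theorem sum_classes (l : ℕ) (hl : 0 < l) :
    ∑ n ∈ (range x).filter (fun n => l ∣ fv d n), w n =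
      ∑ r ∈ (range l).filter (fun r => l ∣ fv d r), ∑ n ∈ (range x).filter (fun n => n % l = r), w n := by
  have hper : ∀ n, (l ∣ fv d n ↔ l ∣ fv d (n % l)) := by
    intro n
    have h := (periodic_dvd_fv d l).map_mod_nat n
    simp only [eq_iff_iff] at h
    exact h.symm
  rw [← sum_fiberwise_of_maps_to (s := (range x).filter (fun n => l ∣ fv d n))
    (t := (range l).filter (fun r => l ∣ fv d r)) (g := fun n => n % l)]
  · refine sum_congr rfl fun r hr => ?_
    refine sum_congr ?_ fun _ _ => rfl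
    ext n
    simp only [mem_filter, mem_range] at hr ⊢
    constructor
    · rintro ⟨⟨h1, _⟩, h3⟩
      exact ⟨h1, h3⟩
    · rintro ⟨h1, h3⟩
      refine ⟨⟨h1, ?_⟩, h3⟩
      rw [hper, h3]
      exact hr.2
  · intro n hn
    simp only [mem_filter, mem_range] at hn ⊢
    exact ⟨Nat.mod_lt _ hl, (hper n).1 hn.2⟩

theorem rem_W (l : ℕ) (hl : l ∣ ∏ p ∈ PR k y, p) (Er : ℝ)
    (h : ∀ r < l, |∑ n ∈ (range x).filter (fun n => n % l = r), w n - A / l| ≤ Er) :
    |(svW hk d x y w hw A).rem l| ≤ l * Er := by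
  have hsq := PR_squarefree k y
  have hl0 : l ≠ 0 := fun hc => hsq.ne_zero (by rw [hc] at hl; exact zero_dvd_iff.mp hl)
  have hlp : 0 < l := Nat.pos_of_ne_zero hl0
  unfold BoundingSieve.rem
  rw [multSum_W, sum_classes d x w l hlp]
  change |_ - nuT d l * A| ≤ _
  have hcard : (((range l).filter (fun r => l ∣ fv d r)).card : ℝ) = NRt d l := by
    rw [← count_eq_NRt d l hlp, Nat.count_eq_card_filter_range]
  have h1 : nuT d l * A = ∑ r ∈ (range l).filter (fun r => l ∣ fv d r), A / l := by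
    rw [nuT_eq hk d y l hl, sum_const, nsmul_eq_mul, hcard]
    ring
  rw [h1, ← sum_sub_distrib]
  refine (abs_sum_le_sum_abs _ _).trans ?_
  have hEr : 0 ≤ Er := (abs_nonneg _).trans (h 0 hlp)
  calc _ ≤ ∑ r ∈ (range l).filter (fun r => l ∣ fv d r), Er := by
        refine sum_le_sum fun r hr => h r ?_
        rw [mem_filter, mem_range] at hr
        exact hr.1
    _ = (NRt d l : ℝ) * Er := by rw [sum_const, nsmul_eq_mul, hcard]
    _ ≤ l * Er := by
        refine mul_le_mul_of_nonneg_right ?_ hEr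
        exact_mod_cast NRt_le hk d y l hl

theorem selberg_terms_W (l : ℕ) (hl : l ∣ (∏ p ∈ PR k y, p)) :
    (svW hk d x y w hw A).selbergTerms l = ∏ p ∈ l.primeFactors, (rho d p : ℝ) / (p - rho d p) := by
  rw [← st_eqT hk d x y l hl, BoundingSieve.selbergTerms_apply, BoundingSieve.selbergTerms_apply]
  rfl

theorem nu_inv_W (l : ℕ) (hl : l ∣ ∏ p ∈ PR k y, p) :
    ((svW hk d x y w hw A).nu l)⁻¹ ≤ l := nu_inv_leT hk d x y l hl

theorem sifted_W : ∑ n ∈ (range x).filter (fun n => ∀ p ∈ PR k y, ∀ j, ¬ p ∣ n + (d j + 1)), w n ≤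
    (svW hk d x y w hw A).siftedSum := by
  unfold BoundingSieve.siftedSum
  change _ ≤ ∑ m ∈ (range x).image (fun n => fv d n),
    (if Nat.Coprime (∏ p ∈ PR k y, p) m then
      (∑ n ∈ (range x).filter (fun n => fv d n = m), w n) else 0)
  rw [sum_fiber hk d x w (fun m t => if Nat.Coprime (∏ p ∈ PR k y, p) m then t else 0), sum_filter]
  refine sum_le_sum fun n _ => ?_
  by_cases hp : (∀ p ∈ PR k y, ∀ j, ¬ p ∣ n + (d j + 1))
  · rw [if_pos hp, if_pos]
    unfold fv
    apply Nat.Coprime.prod_right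
    intro j _
    apply Nat.Coprime.prod_left
    intro p hpP
    exact ((Nat.Prime.coprime_iff_not_dvd (PR_prime' hpP).1).2 (hp p hpP j))
  · rw [if_neg hp]
    split_ifs
    · exact hw n
    · exact le_rfl

include hk hw in
/-- Selberg's upper bound with weights -/
theorem rough_W (z : ℕ) (hz : 1 ≤ z) (Er : ℝ) (hEr : 0 ≤ Er)
    (h : ∀ l : ℕ, 1 ≤ l → l ≤ z ^ 2 → ∀ r < l,
      |∑ n ∈ (range x).filter (fun n => n % l = r), w n - A / l| ≤ Er) :
    ∑ n ∈ (range x).filter (fun n => ∀ p ∈ PR k y, ∀ j, ¬ p ∣ n + (d j + 1)), w n ≤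
      A / (∑ l ∈ (∏ p ∈ PR k y, p).divisors with l ≤ z,
        ∏ p ∈ l.primeFactors, (rho d p : ℝ) / (p - rho d p)) + (z : ℝ) ^ 6 * Er := by
  have hz' : (1 : ℝ) ≤ z := by exact_mod_cast hz
  have hsq := PR_squarefree k y
  have h1 := Pool.Agent.Helper601.siftedSum_le_selberg' (svW hk d x y w hw A) (z : ℝ) hz'
    ((z : ℝ) ^ 2 * Er) (by positivity) (fun l hl hlz => by
      have hl' : l ∣ ∏ p ∈ PR k y, p := hl
      have hl0 : l ≠ 0 := fun hc => hsq.ne_zero (by rw [hc] at hl'; exact zero_dvd_iff.mp hl')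
      have hlz' : l ≤ z ^ 2 := by exact_mod_cast hlz
      refine (rem_W hk d x y w hw A l hl' Er (h l (Nat.pos_of_ne_zero hl0) hlz')).trans ?_
      exact mul_le_mul_of_nonneg_right hlz hEr)
  refine (sifted_W hk d x y w hw A).trans (h1.trans ?_)
  have hS : Pool.Agent.Helper601.selS (svW hk d x y w hw A) (z : ℝ) =
      ∑ l ∈ (∏ p ∈ PR k y, p).divisors with l ≤ z,
        ∏ p ∈ l.primeFactors, (rho d p : ℝ) / (p - rho d p) := by
    unfold Pool.Agent.Helper601.selS
    refine sum_congr ?_ fun l hl => ?_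
    · ext l
      simp only [mem_filter, Nat.cast_le]
      rfl
    · rw [mem_filter] at hl
      exact selberg_terms_W hk d x y w hw A l (Nat.dvd_of_mem_divisors hl.1)
  rw [hS]
  have hT : (svW hk d x y w hw A).totalMass = A := rfl
  rw [hT]
  refine add_le_add le_rfl ?_
  have h2 : ∑ l ∈ (Nat.divisors (svW hk d x y w hw A).prodPrimes).filter (fun l : ℕ => (l : ℝ) ≤ z),
      ((svW hk d x y w hw A).nu l)⁻¹ ≤ (z : ℝ) ^ 2 := by
    calc _ ≤ ∑ l ∈ (Nat.divisors (svW hk d x y w hw A).prodPrimes).filter (fun l : ℕ => (l : ℝ) ≤ z),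
          (z : ℝ) := by
          refine sum_le_sum fun l hl => ?_
          rw [mem_filter] at hl
          exact (nu_inv_W hk d x y w hw A l (Nat.dvd_of_mem_divisors hl.1)).trans hl.2
      _ ≤ (z : ℝ) * z := by
          rw [sum_const, nsmul_eq_mul]
          refine mul_le_mul_of_nonneg_right ?_ (by linarith)
          have h3 : (Nat.divisors (svW hk d x y w hw A).prodPrimes).filter (fun l : ℕ => (l : ℝ) ≤ z) ⊆
              Icc 1 z := by
            intro l hl
            rw [mem_filter] at hl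
            rw [mem_Icc]
            exact ⟨Nat.pos_of_mem_divisors hl.1, by exact_mod_cast hl.2⟩
          have h4 := card_le_card h3
          rw [Nat.card_Icc, Nat.add_sub_cancel] at h4
          exact_mod_cast h4
      _ = (z : ℝ) ^ 2 := by ring
  have h3 : 0 ≤ ∑ l ∈ (Nat.divisors (svW hk d x y w hw A).prodPrimes).filter (fun l : ℕ => (l : ℝ) ≤ z),
      ((svW hk d x y w hw A).nu l)⁻¹ := by
    refine sum_nonneg fun l hl => ?_
    rw [mem_filter] at hl
    exact inv_nonneg.2 (BoundingSieve.nu_pos_of_dvd_prodPrimes (Nat.dvd_of_mem_divisors hl.1)).le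
  calc _ ≤ (z : ℝ) ^ 2 * Er * ((z : ℝ) ^ 2) ^ 2 :=
        mul_le_mul_of_nonneg_left (pow_le_pow_left₀ h3 h2 2) (by positivity)
    _ = (z : ℝ) ^ 6 * Er := by ring

end

open scoped Classical in
/-- **Weighted upper bound sieve** of dimension `#D` for the shifts `D`, with the primes `> W` and an
arbitrarily small level. -/
theorem weighted (D : Finset ℕ) (hD : D.Nonempty) (W : ℕ) (θ : ℝ) (hθ : 0 < θ) (hθ1 : θ ≤ 1 / 2) :
    ∃ C : ℝ, 0 < C ∧ ∃ x₀ : ℕ, 3 ≤ x₀ ∧
    ∀ x : ℕ, x₀ ≤ x → ∀ w : ℕ → ℝ, (∀ n, 0 ≤ w n) → ∀ A : ℝ, 0 ≤ A → ∀ Er : ℝ, 0 ≤ Er →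
      (∀ l : ℕ, 1 ≤ l → (l : ℝ) ≤ (x : ℝ) ^ (2 * θ) → ∀ r < l,
        |∑ n ∈ (range x).filter (fun n => n % l = r), w n - A / l| ≤ Er) →
      ∑ n ∈ (range x).filter (fun n => ∀ p : ℕ, p.Prime → W < p → (p : ℝ) ≤ Real.sqrt x →
        ∀ d ∈ D, ¬ p ∣ n + (d + 1)), w n ≤
        C * A / (Real.log x) ^ D.card + (x : ℝ) ^ (6 * θ) * Er := by
  set κ := D.card with hκ
  have hκ1 : 1 ≤ κ := card_pos.2 hD
  set K : ℕ := max κ (max W (D.sup id)) + 1 with hK
  have hKκ : κ ≤ K := by omega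
  have hK1 : 1 ≤ K := by omega
  have hKW : W ≤ K := by omega
  have hKD : ∀ x ∈ D, x < K := by
    intro x hx
    have : x ≤ D.sup id := le_sup (f := id) hx
    omega
  obtain ⟨d, hd⟩ := exists_enum D hD K hKκ
  obtain ⟨E, hE, y₀, hR⟩ := rankin_lower K hK1
  obtain ⟨C, hC, hP⟩ := prod_PR K
  have hEr : (0 : ℝ) < E := by exact_mod_cast hE
  have hE1 : (1 : ℝ) ≤ E := by exact_mod_cast hE
  have hE' : (0 : ℝ) < θ / E := by positivity
  have hu : Filter.Tendsto (fun x : ℕ => (x : ℝ) ^ (θ / E : ℝ)) Filter.atTop Filter.atTop :=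
    (tendsto_rpow_atTop hE').comp tendsto_natCast_atTop_atTop
  have hu1 := hu.eventually_ge_atTop (max (4 : ℝ) (y₀ + 2))
  obtain ⟨x₀, hx₀⟩ := Filter.eventually_atTop.mp (hu1.and (Filter.eventually_ge_atTop 3))
  refine ⟨2 * (C * (2 * E / θ)) ^ κ, by positivity, max 3 x₀, le_max_left _ _, ?_⟩
  intro x hx w hw A hA Er hEr0 hres
  obtain ⟨h2, h3⟩ := hx₀ x ((le_max_right _ _).trans hx)
  set u : ℝ := (x : ℝ) ^ (θ / E : ℝ) with hudef
  have hu4 : 4 ≤ u := le_trans (le_max_left _ _) h2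
  have huy : (y₀ : ℝ) + 2 ≤ u := le_trans (le_max_right _ _) h2
  set y : ℕ := ⌊u⌋₊ with hy
  have hyu : (y : ℝ) ≤ u := Nat.floor_le (by linarith)
  have hyu2 : u / 2 ≤ y := by
    have := Nat.lt_floor_add_one u
    linarith
  have hy0 : y₀ ≤ y := Nat.le_floor (by linarith)
  have hy2 : 2 ≤ y := Nat.le_floor (by push_cast; linarith)
  have hx0 : (0 : ℝ) < x := by exact_mod_cast (by omega : 0 < x)
  have hx1 : (1 : ℝ) ≤ x := by exact_mod_cast (by omega : 1 ≤ x)
  have hlogx : 0 < Real.log x := Real.log_pos (by exact_mod_cast (by omega : 1 < x))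
  have hlogu : Real.log u = Real.log x * (θ / E) := by
    rw [hudef, Real.log_rpow hx0]; ring
  have hlogy : Real.log x * (θ / (2 * E)) ≤ Real.log y := by
    have h4 : Real.log (u / 2) ≤ Real.log y := Real.log_le_log (by linarith) hyu2
    rw [Real.log_div (by linarith) (by norm_num)] at h4
    have h5 : 2 * Real.log 2 ≤ Real.log u := by
      have : Real.log (2 ^ 2) ≤ Real.log u := Real.log_le_log (by norm_num) (by linarith)
      rw [Real.log_pow] at this
      simpa using this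
    have h6 : Real.log x * (θ / (2 * E)) = Real.log u / 2 := by rw [hlogu]; field_simp
    linarith
  have hlogy0 : 0 < Real.log x * (θ / (2 * E)) := by positivity
  set z : ℕ := y ^ E with hz
  have hz1 : 1 ≤ z := Nat.one_le_pow _ _ (by omega)
  have hzθ : (z : ℝ) ≤ (x : ℝ) ^ θ := by
    rw [hz]
    push_cast
    calc (y : ℝ) ^ E ≤ u ^ E := pow_le_pow_left₀ (by positivity) hyu _
      _ = (x : ℝ) ^ θ := by
        rw [hudef, ← Real.rpow_natCast, ← Real.rpow_mul hx0.le]
        congr 1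
        field_simp
  have hz6 : (z : ℝ) ^ 6 ≤ (x : ℝ) ^ (6 * θ) := by
    calc (z : ℝ) ^ 6 ≤ ((x : ℝ) ^ θ) ^ 6 := pow_le_pow_left₀ (by positivity) hzθ _
      _ = (x : ℝ) ^ (6 * θ) := by
        rw [← Real.rpow_natCast, ← Real.rpow_mul hx0.le]
        congr 1
        push_cast
        ring
  have hz2 : (z : ℝ) ^ 2 ≤ (x : ℝ) ^ (2 * θ) := by
    calc (z : ℝ) ^ 2 ≤ ((x : ℝ) ^ θ) ^ 2 := pow_le_pow_left₀ (by positivity) hzθ _
      _ = (x : ℝ) ^ (2 * θ) := by
        rw [← Real.rpow_natCast, ← Real.rpow_mul hx0.le]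
        congr 1
        push_cast
        ring
  have hysq : (y : ℝ) ≤ Real.sqrt x := by
    rw [Real.sqrt_eq_rpow]
    refine hyu.trans ?_
    rw [hudef]
    apply Real.rpow_le_rpow_of_exponent_le hx1
    calc θ / E ≤ θ / 1 := div_le_div_of_nonneg_left hθ.le one_pos hE1
      _ ≤ 1 / 2 := by linarith
  have hrho : ∀ p ∈ PR K y, rho d p = κ := by
    intro p hp
    have hKp := (PR_prime' hp).2.1
    unfold rho
    have e1 : (univ.image fun j => d j % p) = univ.image d := by
      apply image_congr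
      intro j _
      have hj : d j ∈ D := by
        rw [← hd]; exact mem_image_of_mem _ (mem_univ _)
      have := hKD _ hj
      exact Nat.mod_eq_of_lt (by omega)
    rw [e1, hd]
  have hS := hR y hy0 (rho d) (fun p hp => by rw [hrho p hp]; exact ⟨hκ1, hKκ⟩) z le_rfl
  set S := ∑ l ∈ (∏ p ∈ PR K y, p).divisors with l ≤ z,
          ∏ p ∈ l.primeFactors, (rho d p : ℝ) / (p - rho d p) with hSdef
  set PP := ∏ p ∈ PR K y, (1 - (rho d p : ℝ) / p) with hPP
  have hprod : ∏ p ∈ PR K y, (1 - (rho d p : ℝ) / p)⁻¹ = PP⁻¹ := Finset.prod_inv_distrib _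
  have hfac0 : ∀ p ∈ PR K y, 0 < 1 - (rho d p : ℝ) / p := by
    intro p hp
    have h5 := (PR_prime' hp).2.1
    have h6 : (0 : ℝ) < p := by exact_mod_cast (by omega : 0 < p)
    rw [sub_pos, div_lt_one h6, hrho p hp]
    exact_mod_cast (by omega : κ < p)
  have hPP0 : 0 < PP := Finset.prod_pos hfac0
  rw [hprod] at hS
  have hS0 : 0 < S := lt_of_lt_of_le (by positivity) hS
  have hinv : 1 / S ≤ 2 * PP := by
    rw [div_le_iff₀ hS0]
    have : 2 * PP * (1 / 2 * PP⁻¹) ≤ 2 * PP * S := mul_le_mul_of_nonneg_left hS (by positivity)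
    have h4 : 2 * PP * (1 / 2 * PP⁻¹) = 1 := by field_simp
    linarith
  have hPb : PP ≤ (C / (Real.log x * (θ / (2 * E)))) ^ κ := by
    have h5 : PP ≤ (∏ p ∈ PR K y, (1 - (p : ℝ)⁻¹)) ^ κ := by
      rw [hPP, ← Finset.prod_pow]
      apply Finset.prod_le_prod (fun p hp => (hfac0 p hp).le)
      intro p hp
      have hpp := (PR_prime' hp).1
      rw [hrho p hp]
      have h7 : (p : ℝ)⁻¹ ≤ 1 := by
        have : (1 : ℝ) ≤ p := by exact_mod_cast hpp.pos
        exact inv_le_one_of_one_le₀ this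
      have h8 := one_add_mul_le_pow (a := -(p : ℝ)⁻¹) (by linarith) κ
      calc (1 - (κ : ℝ) / p) = 1 + (κ : ℝ) * (-(p : ℝ)⁻¹) := by rw [div_eq_mul_inv]; ring
        _ ≤ _ := h8
        _ = _ := by rw [← sub_eq_add_neg]
    refine h5.trans ?_
    apply pow_le_pow_left₀ (Finset.prod_nonneg (fun p hp => (prime_factor_pos (PR_prime' hp).1).1.le))
    refine (hP y hy2).trans ?_
    exact div_le_div_of_nonneg_left (by linarith) hlogy0 hlogy
  have hmain := rough_W hK1 d x y w hw A z hz1 Er hEr0 (fun l hl1 hlz r hr => by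
    refine hres l hl1 ?_ r hr
    refine le_trans ?_ hz2
    exact_mod_cast hlz)
  have hsub : ∑ n ∈ (range x).filter (fun n => ∀ p : ℕ, p.Prime → W < p → (p : ℝ) ≤ Real.sqrt x →
      ∀ d ∈ D, ¬ p ∣ n + (d + 1)), w n ≤
      ∑ n ∈ (range x).filter (fun n => ∀ p ∈ PR K y, ∀ j, ¬ p ∣ n + (d j + 1)), w n := by
    refine sum_le_sum_of_subset_of_nonneg ?_ fun n _ _ => hw n
    intro n hn
    rw [mem_filter] at hn ⊢
    refine ⟨hn.1, fun p hp j => ?_⟩
    obtain ⟨g1, g2, g3⟩ := PR_prime' hp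
    apply hn.2 p g1 (by omega)
    · have : (p : ℝ) ≤ y := by exact_mod_cast g3
      linarith
    · rw [← hd]; exact mem_image_of_mem _ (mem_univ _)
  have hxS : A / S ≤ A * (2 * (C / (Real.log x * (θ / (2 * E)))) ^ κ) := by
    rw [div_eq_mul_one_div]
    apply mul_le_mul_of_nonneg_left _ hA
    exact hinv.trans (mul_le_mul_of_nonneg_left hPb (by norm_num))
  have hfin : A * (2 * (C / (Real.log x * (θ / (2 * E)))) ^ κ) =
      2 * (C * (2 * E / θ)) ^ κ * A / (Real.log x) ^ κ := by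
    have e : C / (Real.log x * (θ / (2 * E))) = C * (2 * E / θ) / Real.log x := by field_simp
    rw [e, div_pow]
    ring
  calc _ ≤ _ := hsub
    _ ≤ _ := hmain
    _ ≤ A * (2 * (C / (Real.log x * (θ / (2 * E)))) ^ κ) + (x : ℝ) ^ (6 * θ) * Er :=
        add_le_add hxS (mul_le_mul_of_nonneg_right hz6 hEr0)
    _ = _ := by rw [hfin]

end Pool.Agent.U867.PM
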